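import Pool.Agent.Helper76.D4.Un

/-!
# D4: residues are constants
-/

set_option autoImplicit false

namespace Pool.Agent.Helper76.D4

open Module Pool.Agent.Helper37.SD Pool.Agent.Helper20.TS Pool.Agent.Helper88.D4

open MvPolynomial in
/-- A polynomial all of whose partial derivatives except the first vanish is a polynomial in `X 0`. -/
theorem exists_poly {P : MvPolynomial (Fin 4) ℂ} (h1 : pderiv 1 P = 0) (h2 : pderiv 2 P = 0)
    (h3 : pderiv 3 P = 0) :
    ∃ p : Polynomial ℂ, P = Polynomial.aeval (X 0 : MvPolynomial (Fin 4) ℂ) p := by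
  classical
  refine ⟨∑ m ∈ P.support, Polynomial.monomial (m 0) (coeff m P), ?_⟩
  rw [map_sum]
  conv_lhs => rw [P.as_sum]
  apply Finset.sum_congr rfl
  intro m hm
  have hm0 : coeff m P ≠ 0 := MvPolynomial.mem_support_iff.1 hm
  have e1 : m 1 = 0 := by
    by_contra h
    exact hm0 (coeff_eq_zero_of_pderiv h1 h)
  have e2 : m 2 = 0 := by
    by_contra h
    exact hm0 (coeff_eq_zero_of_pderiv h2 h)
  have e3 : m 3 = 0 := by
    by_contra h
    exact hm0 (coeff_eq_zero_of_pderiv h3 h)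
  have hms : m = Finsupp.single 0 (m 0) := by
    ext i
    fin_cases i
    · simp
    · simpa using e1
    · simpa using e2
    · simpa using e3
  rw [Polynomial.aeval_monomial, MvPolynomial.algebraMap_eq, C_mul_X_pow_eq_monomial, ← hms]

/-- Residues are constants. -/
theorem s_CL_of (hM : MRel) : S_CL := by
  intro K _ _ R ξ J a hC u hu p hp hp1 y hy hne hval c hc hcy
  have hJ := hC.alt
  have hpge : u.Ge 0 p := Or.inr (by rw [hp1]; norm_num)
  set z : Fin 4 → K := ![c, y 0, y 1, y 2] with hz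
  have hz0 : ∀ i, u.Ge 0 (z i) := by
    intro i
    fin_cases i
    · exact hc
    · exact hy 0
    · exact hy 1
    · exact hy 2
  obtain ⟨P, hP0, hP1, hmin⟩ := hM K hC.trdeg u hu.int ⟨p, hp, hp1⟩ z hz0
  have hge : ∀ i j : Fin 3, ∀ q, u.Ge 0 q → u.Ge 0 (J p (y i) (y j) q) := by
    intro i j q hq
    exact bra_ge hC hu hpge (hy i) (hy j) hq
  have ge_zero : ∀ {x : K}, x = 0 → u.Ge 1 x := fun h => Or.inl h
  have hcc : ∀ i j : Fin 3, u.Ge 1 (J p (y i) (y j) c) := by
    intro i j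
    rw [sw14 hJ]
    exact u.ge_neg (hcy i j)
  -- the third function
  have f0 : J p (y 1) (y 2) (y 0) = -J (y 0) (y 1) (y 2) p := sw14 hJ _ _ _ _
  have f1 : J p (y 0) (y 2) (y 1) = J (y 0) (y 1) (y 2) p := by
    rw [sw24 hJ, sw14 hJ, neg_neg]
  have f2 : J p (y 0) (y 1) (y 2) = -J (y 0) (y 1) (y 2) p := by
    rw [sw34 hJ, f1]
  have e1 : MvPolynomial.pderiv 1 P = 0 := by
    refine pderiv_eq_zero hz0 hP1 hmin hp hp1 (J p (y 1) (y 2)) (hge 1 2)
      (ge_zero (eq14 hJ _ _ _)) 1 ?_ ?_ ?_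
    · change J p (y 1) (y 2) (y 0) ≠ 0
      rw [f0]; exact neg_ne_zero.2 hne
    · change u.val (J p (y 1) (y 2) (y 0)) = 0
      rw [f0, u.val_neg]; exact hval
    intro j hj
    fin_cases j
    · exact hcc 1 2
    · exact absurd rfl hj
    · exact ge_zero (eq24 hJ p (y 1) (y 2))
    · exact ge_zero (eq34 hJ p (y 1) (y 2))
  have e2 : MvPolynomial.pderiv 2 P = 0 := by
    refine pderiv_eq_zero hz0 hP1 hmin hp hp1 (J p (y 0) (y 2)) (hge 0 2)
      (ge_zero (eq14 hJ _ _ _)) 2 ?_ ?_ ?_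
    · change J p (y 0) (y 2) (y 1) ≠ 0
      rw [f1]; exact hne
    · change u.val (J p (y 0) (y 2) (y 1)) = 0
      rw [f1]; exact hval
    intro j hj
    fin_cases j
    · exact hcc 0 2
    · exact ge_zero (eq24 hJ p (y 0) (y 2))
    · exact absurd rfl hj
    · exact ge_zero (eq34 hJ p (y 0) (y 2))
  have e3 : MvPolynomial.pderiv 3 P = 0 := by
    refine pderiv_eq_zero hz0 hP1 hmin hp hp1 (J p (y 0) (y 1)) (hge 0 1)
      (ge_zero (eq14 hJ _ _ _)) 3 ?_ ?_ ?_
    · change J p (y 0) (y 1) (y 2) ≠ 0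
      rw [f2]; exact neg_ne_zero.2 hne
    · change u.val (J p (y 0) (y 1) (y 2)) = 0
      rw [f2, u.val_neg]; exact hval
    intro j hj
    fin_cases j
    · exact hcc 0 1
    · exact ge_zero (eq24 hJ p (y 0) (y 1))
    · exact ge_zero (eq34 hJ p (y 0) (y 1))
    · exact absurd rfl hj
  obtain ⟨q, hq⟩ := exists_poly e1 e2 e3
  -- the polynomial `q` has a root
  have hq0 : q ≠ 0 := by
    intro h
    rw [h, map_zero] at hq
    exact hP0 hq
  have hdeg : q.degree ≠ 0 := by
    intro hd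
    rw [Polynomial.eq_C_of_degree_eq_zero hd, Polynomial.aeval_C] at hq
    set t := q.coeff 0 with ht
    have ht0 : t ≠ 0 := by
      intro h
      rw [h, map_zero] at hq
      exact hP0 hq
    rw [hq, MvPolynomial.algebraMap_eq, MvPolynomial.aeval_C] at hP1
    rcases hP1 with h | h
    · exact (map_ne_zero _).2 ht0 h
    · rw [u.map_const t ht0] at h
      norm_num at h
  obtain ⟨t, ht⟩ := IsAlgClosed.exists_root q hdeg
  obtain ⟨q', hq'⟩ := Polynomial.dvd_iff_isRoot.2 ht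
  set Q : MvPolynomial (Fin 4) ℂ :=
    Polynomial.aeval (MvPolynomial.X 0 : MvPolynomial (Fin 4) ℂ) q' with hQ
  have hPQ : P = (MvPolynomial.X 0 - MvPolynomial.C t) * Q := by
    rw [hq, hq', map_mul, map_sub, Polynomial.aeval_X, Polynomial.aeval_C,
      MvPolynomial.algebraMap_eq]
  have hQ0 : Q ≠ 0 := by
    intro h
    rw [h, mul_zero] at hPQ
    exact hP0 hPQ
  have hX0 : (MvPolynomial.X 0 - MvPolynomial.C t : MvPolynomial (Fin 4) ℂ) ≠ 0 := by
    intro h
    rw [h, zero_mul] at hPQ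
    exact hP0 hPQ
  have hXdeg : (MvPolynomial.X 0 - MvPolynomial.C t : MvPolynomial (Fin 4) ℂ).totalDegree ≠ 0 := by
    intro h
    rw [MvPolynomial.totalDegree_eq_zero_iff_eq_C] at h
    have h5 := congrArg (MvPolynomial.pderiv (0 : Fin 4)) h
    rw [map_sub, MvPolynomial.pderiv_X_self, MvPolynomial.pderiv_C, MvPolynomial.pderiv_C,
      sub_zero] at h5
    exact one_ne_zero h5
  have hlt : Q.totalDegree < P.totalDegree := by
    rw [hPQ, MvPolynomial.totalDegree_mul_of_isDomain hX0 hQ0]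
    omega
  obtain ⟨hQc, hQv⟩ := hmin Q hQ0 hlt
  refine ⟨t, ?_⟩
  have hev : MvPolynomial.aeval z P = (c - algebraMap ℂ K t) * MvPolynomial.aeval z Q := by
    rw [hPQ, map_mul, map_sub, MvPolynomial.aeval_X, MvPolynomial.aeval_C]
    rfl
  by_cases hct : c - algebraMap ℂ K t = 0
  · exact Or.inl hct
  rw [hev] at hP1
  rcases hP1 with h | h
  · exact absurd h (mul_ne_zero hct hQc)
  · rw [u.map_mul _ _ hct hQc, hQv, add_zero] at h
    exact Or.inr h

end Pool.Agent.Helper76.D4
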