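import Pool.Agent.Helper76.D4.Un
import Pool.Agent.Helper76.D4.Cl
import Pool.Agent.Helper85.D4.Mr

/-!
# D4: S_UN and S_CL
-/

set_option autoImplicit false

namespace Pool.Agent.Helper76.D4

open Pool.Agent.Helper88.D4

theorem mRel : MRel := by
  intro K _ _ htr u hint hp z hz
  obtain ⟨p, hp0, hp1⟩ := hp
  exact Pool.Agent.Helper85.D4.mr htr u hp0 hp1 hint z hz

/-- Unit Jacobian of uniformisers and invertibility of monomials. -/
theorem s_UN : S_UN := s_UN_of mRel

/-- Closedness. -/
theorem s_CL : S_CL := s_CL_of mRel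

end Pool.Agent.Helper76.D4
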