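import Pool.Agent.Helper88.D4.Stmts6

/-!
# Project D4 (MP_e1889a_ag), stage 7: cones which are not Q-factorial
-/

set_option autoImplicit false

namespace Pool.Agent.Helper76.D4

open Module Filter Topology Pool.Agent.Helper37.SD Pool.Agent.Helper20.TS Pool.Agent.Helper88.D4

section Notions

variable {K : Type} [Field K] [Algebra ℂ K]

/-- `δ` is the divergence of `Z`. -/
def IsDiv (J : Bra K) (Z : Derivation ℂ K K) (δ : K) : Prop := ∀ f : Fin 4 → K,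
  Z (brk J f) = ∑ i, brk J (Function.update f i (Z (f i))) + δ * brk J f

/-- `x ^ (1 / N) • Z` is a regular derivation. -/
structure Rg (R : Subalgebra ℂ K) (Z : Derivation ℂ K K) (x : K) (N : ℕ) : Prop where
  ne : x ≠ 0
  pos : 0 < N
  reg : ∀ u, PDiv R u → ∃ t : ℤ, (N : ℝ) * t ≤ u.val x ∧
    ∀ F, u.Ge 0 F → u.Ge (-(t : ℝ)) (Z F)

/-- `x ^ (1 / N) • Z` is a regular derivation, and its divergence is zero. -/
structure RgD (R : Subalgebra ℂ K) (J : Bra K) (Z : Derivation ℂ K K) (x : K) (N : ℕ) : Prop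
    extends Rg R Z x N where
  dvz : IsDiv J Z ((1 / (N : K)) * (Z x / x))

end Notions

/-! ## Divergence -/

/-- (DG) the divergence at a prime divisor -/
def S_DG : Prop := ∀ (K : Type) [Field K] [Algebra ℂ K] (R : Subalgebra ℂ K)
  (ξ : Derivation ℂ K K) (J : Bra K) (a : ℝ), Cone4 R ξ J a → ∀ (Z : Derivation ℂ K K) (δ : K),
    IsDiv J Z δ → ∀ u, PDiv R u → ∀ t : ℤ, (∀ F, u.Ge 0 F → u.Ge (-(t : ℝ)) (Z F)) →
      ∀ p : K, p ≠ 0 → u.val p = 1 → u.Ge (-(t : ℝ)) (δ - (t : K) * (Z p / p))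

/-- (NB) the last nonzero iterate of the twisted derivation -/
def S_NB : Prop := ∀ (K : Type) [Field K] [Algebra ℂ K] (R : Subalgebra ℂ K)
  (ξ : Derivation ℂ K K) (J : Bra K) (a : ℝ), Cone4 R ξ J a → ∀ (Z : Derivation ℂ K K) (x : K)
    (N : ℕ) (b ζ : ℝ), Rg R Z x N → ξ x = (b : ℂ) • x → ⁅ξ, Z⁆ = (ζ : ℂ) • Z →
      0 < -(b / N + ζ) → ∃ (y : K) (k : ℕ) (e : ℝ), RgD R J Z y k ∧ ξ y = (e : ℂ) • y ∧
        -(b / N + ζ) ≤ -(e / k + ζ)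

/-! ## Twisted iterates -/

/-- (TWx) twisted iterates -/
def S_TWx : Prop := ∀ (K : Type) [Field K] [Algebra ℂ K] (R : Subalgebra ℂ K)
  (ξ : Derivation ℂ K K) (J : Bra K) (a : ℝ), Cone4 R ξ J a → ∀ (Z : Derivation ℂ K K) (x : K)
    (N : ℕ) (b ζ : ℝ), RgD R J Z x N → ξ x = (b : ℂ) • x → ⁅ξ, Z⁆ = (ζ : ℂ) • Z →
      (∀ F ∈ R, ∀ j, x ^ j * tw Z x N F j ^ N ∈ R) ∧
      (∀ (F : K) (w : ℝ), ξ F = (w : ℂ) • F →
        ∀ j, ξ (tw Z x N F j) = ((w + j * ζ : ℝ) : ℂ) • tw Z x N F j) ∧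
      (∀ F ∈ R, ∀ (w : ℝ), ξ F = (w : ℂ) • F → ∀ j : ℕ, w < j * (-(b / N + ζ)) →
        tw Z x N F j = 0) ∧
      (∀ F G j, tw Z x N (F + G) j = tw Z x N F j + tw Z x N G j) ∧
      (∀ F G j, tw Z x N (F * G) j = ∑ i ∈ Finset.range (j + 1),
        (j.choose i : K) * tw Z x N F i * tw Z x N G (j - i)) ∧
      (∀ h, Z h = 0 → ∀ F j, tw Z x N (F * h) j = tw Z x N F j * h)

/-- (WRx) the Wronskian -/
def S_WRx : Prop := ∀ (K : Type) [Field K] [Algebra ℂ K] (R : Subalgebra ℂ K)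
  (ξ : Derivation ℂ K K) (J : Bra K) (a : ℝ), Cone4 R ξ J a → ∀ (Z : Derivation ℂ K K) (x : K)
    (N : ℕ) (b ζ : ℝ), RgD R J Z x N → ξ x = (b : ℂ) • x → ⁅ξ, Z⁆ = (ζ : ℂ) • Z →
      ∀ (n : ℕ) (f : Fin n → K) (w : ℝ), (∀ j, f j ∈ R) → (∀ j, ξ (f j) = (w : ℂ) • f j) →
        wr Z f ≠ 0 → 0 ≤ n * w - (-(b / N + ζ)) * (n * (n - 1) / 2)

/-- (KHx) a first integral of degree `0` -/
def S_KHx : Prop := ∀ (K : Type) [Field K] [Algebra ℂ K] (R : Subalgebra ℂ K)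
  (ξ : Derivation ℂ K K) (J : Bra K) (v : RVal K) (a V : ℝ) (H : Fin 1 → Derivation ℂ K K)
  (c : Fin 1 → ℝ), Cone4 R ξ J a → IsMinF R ξ J v a V → Tor R ξ H c →
    ∀ (Z : Derivation ℂ K K) (κ : ℤ) (x : K) (N : ℕ) (b ζ : ℝ), ⁅H 0, Z⁆ = (κ : ℂ) • Z →
      RgD R J Z x N → ξ x = (b : ℂ) • x → ⁅ξ, Z⁆ = (ζ : ℂ) • Z → 0 < -(b / N + ζ) →
        ∃ h, (∀ i, H i h = 0) ∧ Z h = 0 ∧ ¬ Cst h

/-- (DEx) the valuation `wt / d - deg` for any number `d` such that `deg F ≤ wt F / d` -/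
def S_DEx : Prop := ∀ (K : Type) [Field K] [Algebra ℂ K] (R : Subalgebra ℂ K)
  (ξ : Derivation ℂ K K) (J : Bra K) (a : ℝ), Cone4 R ξ J a → ∀ (Z : Derivation ℂ K K) (x : K)
    (N : ℕ) (d : ℝ), Z ≠ 0 → x ≠ 0 → 0 < N → IsDiv J Z ((1 / (N : K)) * (Z x / x)) → 0 < d →
      (∀ F ∈ R, ∀ (w : ℝ), ξ F = (w : ℂ) • F → ∀ j : ℕ, w < j * d → tw Z x N F j = 0) →
        ∃ u : RVal K, (∀ y ∈ R, y ≠ 0 → 0 ≤ u.val y) ∧ LDLe J u (a / d - 1) ∧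
          (∀ (F : K) (w : ℝ), F ∈ R → F ≠ 0 → ξ F = (w : ℂ) • F →
            ∃ i : ℕ, tw Z x N F i ≠ 0 ∧ u.val F = w / d - i) ∧
          (∀ (F : K) (w : ℝ), F ∈ R → F ≠ 0 → ξ F = (w : ℂ) • F → Z F = 0 → Z x = 0 →
            u.val F = w / d) ∧
          ∀ h, h ≠ 0 → ξ h = 0 → Z h = 0 → u.val h = 0

/-- (L2x) fractional derivations have degree at least `- a / 2` -/
def S_L2x : Prop := ∀ (K : Type) [Field K] [Algebra ℂ K] (R : Subalgebra ℂ K)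
  (ξ : Derivation ℂ K K) (J : Bra K) (v : RVal K) (a V : ℝ) (H : Fin 1 → Derivation ℂ K K)
  (c : Fin 1 → ℝ), Cone4 R ξ J a → IsMinF R ξ J v a V → Tor R ξ H c →
    ∀ (Z : Derivation ℂ K K) (κ : ℤ) (x : K) (N : ℕ) (b ζ : ℝ), Z ≠ 0 →
      ⁅H 0, Z⁆ = (κ : ℂ) • Z → Rg R Z x N → ξ x = (b : ℂ) • x → ⁅ξ, Z⁆ = (ζ : ℂ) • Z →
        -(b / N + ζ) ≤ a / 2

/-! ## Binary forms -/

/-- (MAx) forms with a root of large multiplicity -/
def S_MAx : Prop := ∀ (K : Type) [Field K] [Algebra ℂ K] (R : Subalgebra ℂ K)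
  (ξ : Derivation ℂ K K) (J : Bra K) (v : RVal K) (a V : ℝ) (H : Fin 1 → Derivation ℂ K K)
  (c : Fin 1 → ℝ), Cone4 R ξ J a → IsMinF R ξ J v a V → Tor R ξ H c →
    ∀ (s : ℝ) (D : Fin 2 → Derivation ℂ K K) (P : K), Fr R ξ s D P →
      ∀ (f : Polynomial K) (q : ℕ) (M : ℝ), f.natDegree = q → f ≠ 0 →
        (∀ i, ξ (f.coeff i) = (M : ℂ) • f.coeff i) → RegF R D q f →
          ∀ ρ : AlgebraicClosure K,
            q < 2 * (f.map (algebraMap K (AlgebraicClosure K))).rootMultiplicity ρ →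
              q * min (s / 2) (s - a / 2) ≤ M

/-- (L1x) the degree of a regular binary form -/
def S_L1x : Prop := ∀ (K : Type) [Field K] [Algebra ℂ K] (R : Subalgebra ℂ K)
  (ξ : Derivation ℂ K K) (J : Bra K) (v : RVal K) (a V : ℝ) (H : Fin 1 → Derivation ℂ K K)
  (c : Fin 1 → ℝ), Cone4 R ξ J a → IsMinF R ξ J v a V → Tor R ξ H c →
    ∀ (s : ℝ) (D : Fin 2 → Derivation ℂ K K) (P : K), Fr R ξ s D P →
      ∀ (f : Polynomial K) (q : ℕ) (M : ℝ), f.natDegree ≤ q → f ≠ 0 →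
        (∀ i, ξ (f.coeff i) = (M : ℂ) • f.coeff i) → RegF R D q f →
          q * min (s / 2) (s - a / 2) ≤ M

/-! ## The Reeb field in the plane field -/

/-- (XD) the divergence of the complementary derivation -/
def S_XD : Prop := ∀ (K : Type) [Field K] [Algebra ℂ K] (R : Subalgebra ℂ K)
  (ξ : Derivation ℂ K K) (J : Bra K) (a : ℝ), Cone4 R ξ J a → 0 < a →
    ∀ Z : Derivation ℂ K K, ⁅ξ, Z⁆ = ((-a : ℝ) : ℂ) • Z →
      (∀ u, PDiv R u → ∀ F G, u.Ge 0 F → u.Ge 0 G → u.Ge 0 (ξ F * Z G - Z F * ξ G)) →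
        IsDiv J Z 0 ∧ ∀ (φ : K) (w : ℝ), ξ φ = (w : ℂ) • φ →
          IsDiv J (((w : ℂ) • φ) • Z - Z φ • ξ) 0

/-- (XI1) no first integrals of degree `0` -/
def S_XI1 : Prop := ∀ (K : Type) [Field K] [Algebra ℂ K] (R : Subalgebra ℂ K)
  (ξ : Derivation ℂ K K) (J : Bra K) (v : RVal K) (a V : ℝ), Cone4 R ξ J a →
    IsMinF R ξ J v a V → FGen R ξ → ∀ Z : Derivation ℂ K K, ⁅ξ, Z⁆ = ((-a : ℝ) : ℂ) • Z →
      (∀ g : K, Z ≠ g • ξ) →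
      (∀ u, PDiv R u → ∀ F G, u.Ge 0 F → u.Ge 0 G → u.Ge 0 (ξ F * Z G - Z F * ξ G)) →
        ∀ h, ξ h = 0 → Z h = 0 → Cst h

/-- (XIx) the Reeb field is not tangent to the plane field, if the degree is `- a` -/
def S_XIx : Prop := ∀ (K : Type) [Field K] [Algebra ℂ K] (R : Subalgebra ℂ K)
  (ξ : Derivation ℂ K K) (J : Bra K) (v : RVal K) (a V : ℝ) (H : Fin 1 → Derivation ℂ K K)
  (c : Fin 1 → ℝ), Cone4 R ξ J a → IsMinF R ξ J v a V → FGen R ξ → Tor R ξ H c →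
    ∀ (D : Fin 2 → Derivation ℂ K K) (P : K), Fr R ξ a D P → ¬ ∃ x y : K, ξ = x • D 0 + y • D 1

/-- closed 2-forms -/
def S_FMX : Prop := ∀ (K : Type) [Field K] [Algebra ℂ K] (R : Subalgebra ℂ K)
  (ξ : Derivation ℂ K K) (J : Bra K) (v : RVal K) (a V : ℝ), Cone4 R ξ J a →
    IsMinF R ξ J v a V → QFac R ∨ CoxFG R → ∀ (ω : Form K) (k : ℝ), IsReg R ω → Closed ω →
      HomForm ξ k ω → ω ≠ 0 → a ≤ 2 * k

end Pool.Agent.Helper76.D4
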