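import Pool.Agent.Helper88.D4.Stmts

/-!
# D4: derivations on polynomials, the bracket on a valuation ring
-/

set_option autoImplicit false

namespace Pool.Agent.Helper76.D4

open Module Pool.Agent.Helper37.SD Pool.Agent.Helper20.TS Pool.Agent.Helper88.D4

open MvPolynomial in
theorem der_aeval {K : Type} [Field K] [Algebra ℂ K] {n : ℕ} (D : Derivation ℂ K K)
    (z : Fin n → K) (P : MvPolynomial (Fin n) ℂ) :
    D (aeval z P) = ∑ i, aeval z (pderiv i P) * D (z i) := by
  induction P using MvPolynomial.induction_on with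
  | C a =>
    simp
  | add p q hp hq =>
    simp only [map_add, hp, hq, add_mul, Finset.sum_add_distrib]
  | mul_X p j hp =>
    rw [map_mul, aeval_X, Derivation.leibniz, hp]
    simp only [pderiv_mul, pderiv_X, map_add, map_mul, aeval_X, add_mul, Finset.sum_add_distrib,
      smul_eq_mul]
    rw [add_comm]
    congr 1
    · rw [Finset.mul_sum]
      apply Finset.sum_congr rfl
      intro i _
      ring
    · rw [Finset.sum_eq_single j]
      · simp
      · intro i _ hij
        simp [Ne.symm hij]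
      · intro h
        exact absurd (Finset.mem_univ j) h

open MvPolynomial in
/-- Partial derivatives have smaller degree. -/
theorem totalDegree_pderiv_lt {n : ℕ} (P : MvPolynomial (Fin n) ℂ) (i : Fin n)
    (h : pderiv i P ≠ 0) : (pderiv i P).totalDegree < P.totalDegree := by
  classical
  have key : ∀ m ∈ (pderiv i P).support, (m.sum fun _ e => e) + 1 ≤ P.totalDegree := by
    intro m hm
    rw [MvPolynomial.mem_support_iff, coeff_pderiv] at hm
    have h1 : m + Finsupp.single i 1 ∈ P.support := by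
      rw [MvPolynomial.mem_support_iff]
      intro h0
      rw [h0, zero_mul] at hm
      exact hm rfl
    have h2 := le_totalDegree h1
    have h3 : ((m + Finsupp.single i 1).sum fun _ e => e) = (m.sum fun _ e => e) + 1 := by
      rw [Finsupp.sum_add_index' (fun _ => rfl) (fun _ _ _ => rfl)]
      simp
    omega
  obtain ⟨m, hm⟩ := MvPolynomial.ne_zero_iff.1 h
  have hm' : m ∈ (pderiv i P).support := MvPolynomial.mem_support_iff.2 hm
  have h4 : (pderiv i P).totalDegree + 1 ≤ P.totalDegree := by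
    have h5 := key m hm'
    have h6 : (pderiv i P).totalDegree ≤ P.totalDegree - 1 := by
      unfold totalDegree
      apply Finset.sup_le
      intro m' hm''
      have := key m' hm''
      unfold totalDegree at this h5
      omega
    omega
  omega

open MvPolynomial in
/-- In characteristic zero, a monomial of `P` does not contain `X i` if `pderiv i P = 0`. -/
theorem coeff_eq_zero_of_pderiv {n : ℕ} {P : MvPolynomial (Fin n) ℂ} {i : Fin n}
    (h : pderiv i P = 0) {m : Fin n →₀ ℕ} (hm : m i ≠ 0) : coeff m P = 0 := by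
  classical
  have h1 := coeff_pderiv (i := i) P (m - Finsupp.single i 1)
  rw [h, coeff_zero] at h1
  have h2 : m - Finsupp.single i 1 + Finsupp.single i 1 = m := by
    ext j
    by_cases hj : j = i
    · subst hj
      simp
      omega
    · simp [Ne.symm hj]
  rw [h2] at h1
  have h3 : ((((m - Finsupp.single i 1 : Fin n →₀ ℕ) i) : ℕ) : ℂ) + 1 ≠ 0 := by
    exact Nat.cast_add_one_ne_zero _
  rcases mul_eq_zero.1 h1.symm with h4 | h4
  · exact h4
  · exact absurd h4 h3

open MvPolynomial in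
theorem eq_C_of_pderiv {n : ℕ} {P : MvPolynomial (Fin n) ℂ} (h : ∀ i, pderiv i P = 0) :
    P = C (coeff 0 P) := by
  classical
  ext m
  rw [coeff_C]
  by_cases hm : 0 = m
  · subst hm; simp
  · rw [if_neg hm]
    have : ∃ i, m i ≠ 0 := by
      by_contra hno
      apply hm
      ext i
      have := not_exists.1 hno i
      simpa using (not_not.1 this).symm
    obtain ⟨i, hi⟩ := this
    exact coeff_eq_zero_of_pderiv (h i) hi

/-- The minimal relation statement (helper85). -/
def MRel : Prop := ∀ (K : Type) [Field K] [Algebra ℂ K], Algebra.trdeg ℂ K = 4 →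
  ∀ (u : RVal K), (∀ x, x ≠ 0 → ∃ n : ℤ, u.val x = n) → (∃ p, p ≠ 0 ∧ u.val p = 1) →
    ∀ z : Fin 4 → K, (∀ i, u.Ge 0 (z i)) →
      ∃ P : MvPolynomial (Fin 4) ℂ, P ≠ 0 ∧ u.Ge 1 (MvPolynomial.aeval z P) ∧
        ∀ Q : MvPolynomial (Fin 4) ℂ, Q ≠ 0 → Q.totalDegree < P.totalDegree →
          MvPolynomial.aeval z Q ≠ 0 ∧ u.val (MvPolynomial.aeval z Q) = 0

section bracket

variable {K : Type} [Field K] [Algebra ℂ K] {J : Bra K}

theorem sw14 (hJ : IsAlt J) (a b c d : K) : J a b c d = -J d b c a := hJ.s1 a d b c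

theorem sw12 (hJ : IsAlt J) (a b c d : K) : J a b c d = -J b a c d := by
  rw [hJ.s2 b a c]; rfl

theorem sw23 (hJ : IsAlt J) (a b c d : K) : J a b c d = -J a c b d := by
  rw [hJ.s3 a c b]; rfl

theorem sw24 (hJ : IsAlt J) (a b c d : K) : J a b c d = -J a d c b := by
  rw [sw12 hJ a b c d, sw14 hJ b a c d, sw12 hJ d a c b, neg_neg]

theorem sw34 (hJ : IsAlt J) (a b c d : K) : J a b c d = -J a b d c := by
  rw [sw23 hJ a b c d, sw24 hJ a c b d, sw23 hJ a d b c, neg_neg]

theorem zero_of_neg {x : K} (h : x = -x) : x = 0 := by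
  have h2 : (2 : ℂ) • x = 0 := by
    rw [two_smul]
    nth_rewrite 1 [h]
    exact neg_add_cancel x
  rcases smul_eq_zero.1 h2 with h3 | h3
  · norm_num at h3
  · exact h3

theorem eq14 (hJ : IsAlt J) (a b c : K) : J a b c a = 0 := by
  have h := sw14 hJ a b c a
  exact zero_of_neg h

theorem eq24 (hJ : IsAlt J) (a b c : K) : J a b c b = 0 := by
  have h := sw24 hJ a b c b
  exact zero_of_neg h

theorem eq34 (hJ : IsAlt J) (a b c : K) : J a b c c = 0 := by
  have h := sw34 hJ a b c c
  exact zero_of_neg h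

variable {R : Subalgebra ℂ K} {u : RVal K}

theorem ge_of_mem (hu : PDiv R u) {x : K} (hx : x ∈ R) : u.Ge 0 x := by
  by_cases h : x = 0
  · exact Or.inl h
  · exact Or.inr (hu.nonneg x hx h)

/-- A derivation which maps `R` to the valuation ring preserves the valuation ring. -/
theorem der_ge (hu : PDiv R u) (E : Derivation ℂ K K) (hE : ∀ x ∈ R, u.Ge 0 (E x)) {q : K}
    (hq : u.Ge 0 q) : u.Ge 0 (E q) := by
  by_cases h0 : q = 0
  · subst h0
    rw [map_zero]; exact Or.inl rfl
  have hq' : 0 ≤ u.val q := by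
    rcases hq with h | h
    · exact absurd h h0
    · exact h
  obtain ⟨s, hs, hs0, hsv, hsq⟩ := hu.loc q h0 hq'
  have h1 : s * E q = E (s * q) - q * E s := by
    rw [Derivation.leibniz, smul_eq_mul, smul_eq_mul]; ring
  have h2 : u.Ge 0 (s * E q) := by
    rw [h1]
    apply u.ge_sub (hE _ hsq)
    have := u.ge_mul hq (hE s hs)
    simpa using this
  have h3 : E q = (s * E q) / s := by
    field_simp
  rw [h3]
  have := u.ge_div h2 hs0
  rwa [hsv, sub_zero] at this

theorem bra_ge {ξ : Derivation ℂ K K} {a : ℝ} (hC : Cone4 R ξ J a) (hu : PDiv R u) {x y z w : K}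
    (hx : u.Ge 0 x) (hy : u.Ge 0 y) (hz : u.Ge 0 z) (hw : u.Ge 0 w) : u.Ge 0 (J x y z w) := by
  have hJ := hC.alt
  have h0 : ∀ x ∈ R, ∀ y ∈ R, ∀ z ∈ R, ∀ w, u.Ge 0 w → u.Ge 0 (J x y z w) := by
    intro x hx y hy z hz w hw
    exact der_ge hu (J x y z) (fun t ht => ge_of_mem hu (hC.reg t ht x hx y hy z hz)) hw
  have h1 : ∀ x, u.Ge 0 x → ∀ y ∈ R, ∀ z ∈ R, ∀ w, u.Ge 0 w → u.Ge 0 (J x y z w) := by
    intro x hx y hy z hz w hw
    refine der_ge hu (J x y z) (fun t ht => ?_) hw
    rw [sw14 hJ]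
    exact u.ge_neg (h0 t ht y hy z hz x hx)
  have h2 : ∀ x, u.Ge 0 x → ∀ y, u.Ge 0 y → ∀ z ∈ R, ∀ w, u.Ge 0 w → u.Ge 0 (J x y z w) := by
    intro x hx y hy z hz w hw
    refine der_ge hu (J x y z) (fun t ht => ?_) hw
    rw [sw24 hJ]
    exact u.ge_neg (h1 x hx t ht z hz y hy)
  refine der_ge hu (J x y z) (fun t ht => ?_) hw
  rw [sw34 hJ]
  exact u.ge_neg (h2 x hx y hy t ht z hz)

end bracket

end Pool.Agent.Helper76.D4
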