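import Pool.Agent.Helper88.D4.Stmts3
import Pool.Agent.Helper51.D4.Quo
import Pool.Agent.Helper11.D4.EX1

/-!
# Finitely generated Cox algebras give finitely generated divisorial algebras (project D4)
-/

set_option autoImplicit false

namespace Pool.Agent.Helper76.D4

open Module Filter Topology Pool.Agent.Helper37.SD Pool.Agent.Helper20.TS Pool.Agent.Helper88.D4
  Pool.Agent.Helper51.D4

variable {K : Type} [Field K] [Algebra ℂ K]

theorem rval_one (u : RVal K) : u.val 1 = 0 := by
  have := u.map_const 1 one_ne_zero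
  rwa [map_one] at this

theorem rval_ge_mul (u : RVal K) {b c : ℝ} {x y : K} (hx : u.Ge b x) (hy : u.Ge c y) :
    u.Ge (b + c) (x * y) := by
  rcases hx with rfl | hx
  · exact Or.inl (zero_mul _)
  rcases hy with rfl | hy
  · exact Or.inl (mul_zero _)
  by_cases h : x * y = 0
  · exact Or.inl h
  · rw [mul_eq_zero, not_or] at h
    exact Or.inr (by rw [u.map_mul _ _ h.1 h.2]; linarith)

/-! ### Prime divisors with the same centre -/

theorem nonneg_of_ctr {R : Subalgebra ℂ K} {u w : RVal K} (hu : PDiv R u) (hw : PDiv R w)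
    (h : ctr R u hu = ctr R w hw) {x : K} (hx : x ≠ 0) (hux : 0 ≤ u.val x) : 0 ≤ w.val x := by
  obtain ⟨s, hs, hs0, hus, hsx⟩ := hu.loc x hx hux
  have h1 : (⟨s, hs⟩ : R) ∉ ctr R w hw := by
    rw [← h, mem_ctr]
    rintro (h2 | h2)
    · exact hs0 h2
    · change 0 < u.val s at h2
      rw [hus] at h2
      exact lt_irrefl _ h2
  have h2 : ¬ 0 < w.val s := fun h3 => h1 (mem_ctr.mpr (Or.inr h3))
  have h3 := hw.nonneg _ hsx (mul_ne_zero hs0 hx)
  rw [w.map_mul _ _ hs0 hx] at h3
  linarith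

theorem zero_of_ctr {R : Subalgebra ℂ K} {u w : RVal K} (hu : PDiv R u) (hw : PDiv R w)
    (h : ctr R u hu = ctr R w hw) {x : K} (hx : x ≠ 0) (hux : u.val x = 0) : w.val x = 0 := by
  have h1 := nonneg_of_ctr hu hw h hx hux.ge
  have h2 := nonneg_of_ctr hu hw h (inv_ne_zero hx) (by rw [val_inv u hx, hux, neg_zero])
  rw [val_inv w hx] at h2
  linarith

/-- prime divisors with the same centre are equal -/
theorem eq_of_ctr {R : Subalgebra ℂ K} {u w : RVal K} (hu : PDiv R u) (hw : PDiv R w)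
    (h : ctr R u hu = ctr R w hw) {y : K} (hy : y ≠ 0) : u.val y = w.val y := by
  obtain ⟨p, hp, hp0, hup⟩ := hu.unif
  obtain ⟨q, hq, hq0, hwq⟩ := hw.unif
  have hwp : 0 < w.val p := by
    have h1 : (⟨p, hp⟩ : R) ∈ ctr R w hw := by
      rw [← h, mem_ctr]
      exact Or.inr (by change 0 < u.val p; rw [hup]; exact one_pos)
    exact (mem_ctr.mp h1).resolve_left hp0
  have key : ∀ x, x ≠ 0 → w.val x = u.val x * w.val p := by
    intro x hx
    obtain ⟨n, hn⟩ := hu.int x hx
    have hn' : ((n.toNat : ℤ) : ℝ) - (((-n).toNat : ℤ) : ℝ) = (n : ℝ) := by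
      rw [← Int.cast_sub, Int.toNat_sub_toNat_neg]
    have hz : x * p ^ (-n).toNat / p ^ n.toNat ≠ 0 :=
      div_ne_zero (mul_ne_zero hx (pow_ne_zero _ hp0)) (pow_ne_zero _ hp0)
    have e : ∀ v : RVal K, v.val (x * p ^ (-n).toNat / p ^ n.toNat) =
        v.val x - n * v.val p := by
      intro v
      rw [val_div v (mul_ne_zero hx (pow_ne_zero _ hp0)) (pow_ne_zero _ hp0),
        v.map_mul _ _ hx (pow_ne_zero _ hp0), val_pow v hp0, val_pow v hp0, ← hn']
      push_cast
      ring
    have h1 := zero_of_ctr hu hw h hz (by rw [e u, hup, hn]; ring)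
    rw [e w] at h1
    rw [hn]
    linarith
  obtain ⟨k, hk⟩ := hw.int p hp0
  obtain ⟨n, hn⟩ := hu.int q hq0
  have h1 := key q hq0
  rw [hwq, hn, hk] at h1
  have h2 : (1 : ℤ) = n * k := by exact_mod_cast h1
  have h3 : 0 < k := by
    rw [hk] at hwp
    exact_mod_cast hwp
  have h4 : k = 1 := by
    have h5 : k ∣ 1 := ⟨n, by rw [h2]; ring⟩
    exact Int.eq_one_of_dvd_one h3.le h5
  have h6 := key y hy
  rw [hk, h4] at h6
  rw [h6]
  simp

/-! ### The poles of a function -/

theorem exists_poles {R : Subalgebra ℂ K} (hR : IsFrac R) (hfg : R.FG) {h : K} (h0 : h ≠ 0) :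
    ∃ (p : ℕ) (u : Fin p → RVal K), (∀ i, PDiv R (u i)) ∧ (∀ i j, i ≠ j → Dist (u i) (u j)) ∧
      (∀ i, (u i).val h < 0) ∧ ∀ w, PDiv R w → w.val h < 0 →
        ∃ i, ∀ y, y ≠ 0 → w.val y = (u i).val y := by
  classical
  have hfin : {P : Ideal R | ∃ (u : RVal K) (hu : PDiv R u), P = ctr R u hu ∧
      u.val h < 0}.Finite := by
    obtain ⟨a, ha, b, hb, hb0, e⟩ := hR h
    have ha0 : a ≠ 0 := fun h1 => h0 (by rw [e, h1, zero_div])
    refine (finite_TC hfg (g := b) hb hb0).subset ?_
    rintro P ⟨u, hu, rfl, h1⟩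
    rw [e, val_div u ha0 hb0] at h1
    have h2 := hu.nonneg a ha ha0
    exact ⟨u, hu, rfl, by linarith, by linarith⟩
  set T := hfin.toFinset with hT
  have hmem : ∀ P : Ideal R, P ∈ T ↔ ∃ (u : RVal K) (hu : PDiv R u), P = ctr R u hu ∧
      u.val h < 0 := fun P => by rw [hT, Set.Finite.mem_toFinset]; rfl
  have hch : ∀ i : Fin T.card, ∃ (u : RVal K) (hu : PDiv R u),
      ((T.equivFin.symm i : T) : Ideal R) = ctr R u hu ∧ u.val h < 0 := fun i =>
    (hmem _).mp (T.equivFin.symm i).2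
  choose u hu hc hneg using hch
  refine ⟨T.card, u, hu, fun i j hij => ?_, hneg, fun w hw hwh => ?_⟩
  · by_contra hd
    unfold Pool.Agent.Helper88.D4.Dist at hd
    push Not at hd
    have h1 : ctr R (u i) (hu i) = ctr R (u j) (hu j) := by
      ext x
      rw [mem_ctr, mem_ctr]
      by_cases hx : (x : K) = 0
      · simp [hx]
      · rw [hd _ hx]
    rw [← hc i, ← hc j] at h1
    exact hij (T.equivFin.symm.injective (Subtype.ext h1))
  · have h1 : ctr R w hw ∈ T := (hmem _).mpr ⟨w, hw, rfl, hwh⟩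
    refine ⟨T.equivFin ⟨_, h1⟩, fun y hy => ?_⟩
    have h2 := hc (T.equivFin ⟨_, h1⟩)
    rw [Equiv.symm_apply_apply] at h2
    exact eq_of_ctr hw (hu _) h2 hy

/-! ### Divisorial algebras -/

theorem mem_R_of {R : Subalgebra ℂ K} (hR : IsFrac R) (hfg : R.FG) (hN : Normal R) {x : K}
    (h : ∀ w, PDiv R w → w.Ge 0 x) : x ∈ R := by
  by_contra hx
  obtain ⟨w, hw, hw0⟩ := Pool.Agent.Helper11.D4.s_EX1 K R hR hfg hN x hx
  rcases h w hw with h1 | h1
  · exact hx (h1 ▸ R.zero_mem)
  · linarith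

theorem sj_iff {R : Subalgebra ℂ K} (hR : IsFrac R) (hfg : R.FG) (hN : Normal R) {h : K}
    (h0 : h ≠ 0) {p : ℕ} {u : Fin p → RVal K} (hu : ∀ i, PDiv R (u i))
    (hw : ∀ w, PDiv R w → w.val h < 0 → ∃ i, ∀ y, y ≠ 0 → w.val y = (u i).val y) {e : Fin p → ℕ}
    (he : ∀ i, (u i).val h = -(e i : ℝ)) (j : ℕ) (x : K) :
    x ∈ Sj R h j ↔ x ∈ Sd R u (fun i => -((j : ℤ) * e i)) := by
  have hj0 : h ^ j ≠ 0 := pow_ne_zero _ h0
  constructor
  · rintro ⟨h1, h2⟩
    refine ⟨fun i => ?_, fun w hw _ => ?_⟩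
    · by_cases hx : x = 0
      · exact Or.inl hx
      right
      have h3 := (hu i).nonneg _ h2 (mul_ne_zero hx hj0)
      rw [(u i).map_mul _ _ hx hj0, val_pow _ h0, he i] at h3
      push_cast
      linarith
    · by_cases hx : x = 0
      · exact Or.inl hx
      · exact Or.inr (hw.nonneg _ h1 hx)
  · rintro ⟨h1, h2⟩
    by_cases hx : x = 0
    · rw [hx]
      exact (Sj R h j).zero_mem
    have key : ∀ w, PDiv R w → 0 ≤ w.val x ∧ 0 ≤ w.val (x * h ^ j) := by
      intro w hwp
      rw [w.map_mul _ _ hx hj0, val_pow w h0]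
      by_cases hd : ∀ i, Dist w (u i)
      · have h3 : 0 ≤ w.val x := (h2 w hwp hd).resolve_left hx
        have h4 : 0 ≤ w.val h := by
          by_contra h5
          push Not at h5
          obtain ⟨i, hi⟩ := hw w hwp h5
          obtain ⟨y, hy, hy'⟩ := hd i
          exact hy' (hi y hy)
        exact ⟨h3, add_nonneg h3 (mul_nonneg (Nat.cast_nonneg _) h4)⟩
      · push Not at hd
        obtain ⟨i, hi⟩ := hd
        unfold Pool.Agent.Helper88.D4.Dist at hi
        push Not at hi
        have h3 := (h1 i).resolve_left hx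
        rw [hi x hx, hi h h0, he i]
        push_cast at h3
        have h4 : (0 : ℝ) ≤ (j : ℝ) * e i := by positivity
        constructor <;> linarith
    refine ⟨mem_R_of hR hfg hN fun w hwp => Or.inr (key w hwp).1,
      mem_R_of hR hfg hN fun w hwp => Or.inr (key w hwp).2⟩

/-! ### Products of sections -/

theorem sd_one {R : Subalgebra ℂ K} {p : ℕ} (u : Fin p → RVal K) : (1 : K) ∈ Sd R u 0 :=
  ⟨fun i => Or.inr (by rw [rval_one]; simp), fun w _ _ => Or.inr (by rw [rval_one])⟩

theorem sd_mul {R : Subalgebra ℂ K} {p : ℕ} {u : Fin p → RVal K} {m n : Fin p → ℤ} {x y : K}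
    (hx : x ∈ Sd R u m) (hy : y ∈ Sd R u n) : x * y ∈ Sd R u (m + n) :=
  ⟨fun i => by
    have h := rval_ge_mul (u i) (hx.1 i) (hy.1 i)
    have e : -(((m + n) i : ℤ) : ℝ) = -(m i : ℝ) + -(n i : ℝ) := by
      rw [Pi.add_apply]
      push_cast
      ring
    rw [e]
    exact h,
  fun w hw hd => by
    have h := rval_ge_mul w (hx.2 w hw hd) (hy.2 w hw hd)
    rwa [add_zero] at h⟩

theorem sd_pow {R : Subalgebra ℂ K} {p : ℕ} {u : Fin p → RVal K} {m : Fin p → ℤ} {x : K}
    (hx : x ∈ Sd R u m) (k : ℕ) : x ^ k ∈ Sd R u (k • m) := by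
  induction k with
  | zero =>
    rw [pow_zero, zero_smul]
    exact sd_one u
  | succ k ih =>
    rw [pow_succ, succ_nsmul]
    exact sd_mul ih hx

theorem sd_prod {R : Subalgebra ℂ K} {p : ℕ} {u : Fin p → RVal K} {ι : Type} (s : Finset ι)
    (m : ι → Fin p → ℤ) (x : ι → K) (hx : ∀ i ∈ s, x i ∈ Sd R u (m i)) :
    ∏ i ∈ s, x i ∈ Sd R u (∑ i ∈ s, m i) := by
  classical
  induction s using Finset.induction_on with
  | empty =>
    rw [Finset.prod_empty, Finset.sum_empty]
    exact sd_one u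
  | insert a s ha ih =>
    rw [Finset.prod_insert ha, Finset.sum_insert ha]
    exact sd_mul (hx a (Finset.mem_insert_self _ _))
      (ih fun i hi => hx i (Finset.mem_insert_of_mem hi))

/-! ### The theorem -/

/-- the monomial of exponent `g` -/
noncomputable def mono {N : ℕ} (x : Fin N → K) (g : (Fin N → ℕ) × ℕ) : Polynomial K :=
  Polynomial.C (∏ l, x l ^ g.1 l) * Polynomial.X ^ g.2

omit [Algebra ℂ K] in
theorem mono_zero {N : ℕ} (x : Fin N → K) : mono x 0 = 1 := by
  simp [mono]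

omit [Algebra ℂ K] in
theorem mono_add {N : ℕ} (x : Fin N → K) (g g' : (Fin N → ℕ) × ℕ) :
    mono x (g + g') = mono x g * mono x g' := by
  unfold mono
  rw [Prod.fst_add, Prod.snd_add, pow_add]
  simp only [Pi.add_apply, pow_add, Finset.prod_mul_distrib, map_mul]
  ring

theorem s_CF : S_CF := by
  classical
  intro K _ _ R ξ hC hN hcox h hh hcst
  have h0 : h ≠ 0 := fun e => hcst ⟨0, by rw [e, map_zero]⟩
  obtain ⟨p, u, hu, hd, hneg, hall⟩ := exists_poles hC.frac hC.fg h0
  have he' : ∀ i, ∃ n : ℕ, (u i).val h = -(n : ℝ) := by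
    intro i
    obtain ⟨n, hn⟩ := (hu i).int h h0
    have h1 := hneg i
    rw [hn] at h1
    have h2 : n < 0 := by exact_mod_cast h1
    refine ⟨(-n).toNat, ?_⟩
    rw [hn]
    have h3 : (((-n).toNat : ℤ) : ℝ) = ((-n : ℤ) : ℝ) := by
      rw [Int.toNat_of_nonneg (by omega)]
    rw [Int.cast_natCast] at h3
    rw [h3]
    push_cast
    ring
  choose e he using he'
  have hSj := sj_iff hC.frac hC.fg hN h0 hu hall he
  obtain ⟨N, x, m, hx, hspan⟩ := hcox p u hu hd
  let f : ((Fin N → ℕ) × ℕ) →+ (Fin p → ℤ) :=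
    { toFun := fun g i => ∑ l, (g.1 l : ℤ) * m l i + (g.2 : ℤ) * e i
      map_zero' := by
        funext i
        simp
      map_add' := fun g g' => by
        funext i
        simp only [Prod.fst_add, Prod.snd_add, Pi.add_apply, Nat.cast_add, add_mul,
          Finset.sum_add_distrib]
        ring }
  obtain ⟨S, hS⟩ := AddSubmonoid.fg_eqLocusM f 0
  have hmem : ∀ g : (Fin N → ℕ) × ℕ, g ∈ f.eqLocusM 0 ↔
      ∀ i, ∑ l, (g.1 l : ℤ) * m l i = -((g.2 : ℤ) * e i) := by
    intro g
    have h1 : g ∈ f.eqLocusM 0 ↔ f g = 0 := Iff.rfl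
    rw [h1, funext_iff]
    refine forall_congr' fun i => ?_
    change ∑ l, (g.1 l : ℤ) * m l i + (g.2 : ℤ) * e i = 0 ↔ _
    exact ⟨fun h2 => by linarith, fun h2 => by linarith⟩
  have hin : ∀ g ∈ f.eqLocusM 0, mono x g ∈ Sym R h := by
    intro g hg j
    rw [mono, Polynomial.coeff_C_mul_X_pow]
    split_ifs with hj
    · subst hj
      rw [hSj]
      have h1 := sd_prod Finset.univ (fun l => g.1 l • m l) (fun l => x l ^ g.1 l)
        (fun l _ => sd_pow (hx l) (g.1 l))
      have h2 : ∑ l, g.1 l • m l = fun i => -((g.2 : ℤ) * e i) := by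
        funext i
        rw [← (hmem g).mp hg i, Finset.sum_apply]
        simp
      rwa [h2] at h1
    · exact (Sj R h j).zero_mem
  refine ⟨S.image (mono x), le_antisymm ?_ ?_⟩
  · rw [Algebra.adjoin_le_iff]
    intro P hP
    rw [Finset.coe_image] at hP
    obtain ⟨g, hg, rfl⟩ := hP
    refine hin g ?_
    rw [← hS]
    exact AddSubmonoid.subset_closure hg
  · intro P hP
    set A := Algebra.adjoin ℂ ((S.image (mono x) : Finset (Polynomial K)) : Set (Polynomial K))
      with hA
    have h1 : ∀ g ∈ f.eqLocusM 0, mono x g ∈ A := by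
      intro g hg
      rw [← hS] at hg
      induction hg using AddSubmonoid.closure_induction with
      | mem y hy =>
        exact Algebra.subset_adjoin (by
          rw [Finset.coe_image]
          exact ⟨y, hy, rfl⟩)
      | zero =>
        rw [mono_zero]
        exact A.one_mem
      | add y z _ _ hy hz =>
        rw [mono_add]
        exact A.mul_mem hy hz
    have h2 : ∀ (j : ℕ) (y : K), y ∈ Sj R h j → Polynomial.C y * Polynomial.X ^ j ∈ A := by
      intro j y hy
      rw [hSj] at hy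
      replace hy := hspan _ y hy
      induction hy using Submodule.span_induction with
      | mem z hz =>
        obtain ⟨a, ha, rfl⟩ := hz
        exact h1 (a, j) ((hmem _).mpr ha)
      | zero =>
        rw [map_zero, zero_mul]
        exact A.zero_mem
      | add y z _ _ hy hz =>
        rw [map_add, add_mul]
        exact A.add_mem hy hz
      | smul t y _ hy =>
        have e2 : Polynomial.C (t • y) * Polynomial.X ^ j =
            t • (Polynomial.C y * Polynomial.X ^ j) := by
          rw [← Polynomial.smul_C, smul_mul_assoc]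
        rw [e2]
        exact A.smul_mem hy t
    rw [← Polynomial.sum_C_mul_X_pow_eq P, Polynomial.sum]
    exact A.sum_mem fun j _ => h2 j _ (hP j)

end Pool.Agent.Helper76.D4
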