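import Pool.Agent.Helper76.D4.Clo7a
import Pool.Agent.Helper87.D4.XI1x
import Pool.Agent.Helper12.D4.FmX

/-!
# Project D4 (MP_e1889a_ag): closure of stage 7
-/

set_option autoImplicit false

namespace Pool.Agent.Helper76.D4

open Pool.Agent.Helper88.D4

/-- closed 2-forms on cones of dimension 4 -/
theorem t_FMX : S_FMX :=
  Pool.Agent.Helper12.D4.s_FMX t_FMQ Pool.Agent.Helper46.D4.Ker.s_KER
    (t_XIx Pool.Agent.Helper87.D4.s_XI1) t_L1x t_JET

end Pool.Agent.Helper76.D4
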