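import Pool.Agent.Helper76.D4.Stmts7
import Pool.Agent.Helper11.D4.EX1
import Pool.Agent.Helper14.D4.G1
import Pool.Agent.Helper37.D4.T0
import Pool.Agent.Helper37.D4.V5
import Pool.Agent.Helper75.D4.LDpd
import Pool.Agent.Helper88.D4.CM

/-!
# Project D4 (MP_e1889a_ag), stage 7: fractional derivations have degree at least `- a / 2`
-/

set_option autoImplicit false

namespace Pool.Agent.Helper76.D4

open Module Filter Topology Pool.Agent.Helper37.SD Pool.Agent.Helper20.TS Pool.Agent.Helper88.D4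

variable {K : Type} [Field K] [Algebra ℂ K] {R : Subalgebra ℂ K} {ξ : Derivation ℂ K K}

/-- a homogeneous element of `S_1` -/
theorem exists_sj (hR : IsCone R ξ) {h : K} (hh : ξ h = 0) :
    ∃ (φ : K) (w : ℝ), φ ∈ Sj R h 1 ∧ φ ≠ 0 ∧ ξ φ = (w : ℂ) • φ := by
  obtain ⟨p, hp, q, hq, hq0, hx⟩ := hR.frac h
  have hqs : q ∈ Sj R h 1 := ⟨hq, by rw [pow_one, hx, mul_div_cancel₀ _ hq0]; exact hp⟩
  obtain ⟨F, hF⟩ := exists_dec (Helper14.D4.sj_dec hR hh 1 hqs)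
  obtain ⟨c, hc⟩ : ∃ c, F c ≠ 0 := by
    by_contra hcon
    push Not at hcon
    apply hq0
    rw [← hF.sum, Finsupp.sum]
    exact Finset.sum_eq_zero fun i _ => hcon i
  exact ⟨F c, c, hF.mem c, hc, hF.eig c⟩

/-- the value of an element of `S_j`, from the homogeneous elements -/
theorem sj_val (hR : IsCone R ξ) {h : K} (hh : ξ h = 0) {u : RVal K} {j : ℕ} {m : ℝ}
    (hu : ∀ (φ : K) (w : ℝ), φ ∈ Sj R h j → φ ≠ 0 → ξ φ = (w : ℂ) • φ → m ≤ u.val φ) {φ : K}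
    (hφ : φ ∈ Sj R h j) (h0 : φ ≠ 0) : m ≤ u.val φ := by
  obtain ⟨F, hF⟩ := exists_dec (Helper14.D4.sj_dec hR hh j hφ)
  have h1 : u.Ge m φ := by
    rw [← hF.sum, Finsupp.sum]
    refine u.ge_sum _ _ fun c hc => Or.inr ?_
    exact hu (F c) c (hF.mem c) (Finsupp.mem_support_iff.mp hc) (hF.eig c)
  exact h1.resolve_left h0

theorem e_mul {x y : K} {c d : ℝ} (hx : ξ x = (c : ℂ) • x)
    (hy : ξ y = (d : ℂ) • y) : ξ (x * y) = ((c + d : ℝ) : ℂ) • (x * y) := by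
  rw [Derivation.leibniz, hx, hy]
  push_cast
  simp only [smul_eq_mul, Algebra.smul_def, map_add]
  ring

theorem e_pow {x : K} {c : ℝ} (hx : ξ x = (c : ℂ) • x) (n : ℕ) :
    ξ (x ^ n) = ((n * c : ℝ) : ℂ) • x ^ n := by
  induction n with
  | zero => simp
  | succ n ih =>
    rw [pow_succ, e_mul ih hx]
    congr 2
    push_cast
    ring

/-- the slopes are bounded -/
theorem slope_bd {J : Bra K} {v : RVal K} {a V : ℝ} (hC : Cone4 R ξ J a)
    (hM : IsMinF R ξ J v a V) {h : K} (hh : ξ h = 0) (hcst : ¬ Cst h) {j : ℕ} {φ : K} {w : ℝ}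
    (hφ : φ ∈ Sj R h j) (h0 : φ ≠ 0) (hw : ξ φ = (w : ℂ) • φ) : a * j ≤ 4 * w := by
  have hh0 : h ≠ 0 := by
    rintro rfl
    exact hcst ⟨0, by rw [map_zero]⟩
  have hhR : h ∉ R := fun hmem => hcst (hC.toIsCone.const h hmem hh)
  obtain ⟨u, hu, hlt⟩ := Helper11.D4.s_EX1 K R hC.frac hC.fg hC.normal _ hhR
  obtain ⟨n, hn⟩ := hu.int h hh0
  have hn1 : u.val h ≤ -1 := by
    rw [hn] at hlt ⊢
    have h1 : n < 0 := by exact_mod_cast hlt
    have h2 : n ≤ -1 := by omega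
    exact_mod_cast h2
  have h1 : 0 ≤ u.val φ + j * u.val h := by
    have h2 := hu.nonneg _ hφ.2 (mul_ne_zero h0 (pow_ne_zero _ hh0))
    rwa [u.map_mul _ _ h0 (pow_ne_zero _ hh0), u.val_pow hh0] at h2
  have h2 : (j : ℝ) ≤ u.val φ := by
    have h3 : (j : ℝ) * u.val h ≤ j * (-1) := mul_le_mul_of_nonneg_left hn1 (Nat.cast_nonneg j)
    linarith
  have h3 := (Helper37.D4.s_T0 K R ξ J v a V hC hM.toMin u 1 hu.nonneg
    (Helper75.D4.s_LDpd K R ξ J a hC u hu)).2 φ w hφ.1 h0 hw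
  have h4 := mul_le_mul_of_nonneg_left h2 hM.apos.le
  linarith

/-- (L2x) -/
theorem s_L2x (hNB : S_NB) (hKH : S_KHx) (hTW : S_TWx) (hDE : S_DEx) : S_L2x := by
  intro K _ _ R ξ J v a V H c hC hM hT Z κ x N b ζ hZ hHZ hR hx hζ
  by_contra hcon
  push Not at hcon
  have ha := hM.apos
  obtain ⟨y, k, e, hy, hye, hle⟩ := hNB K R ξ J a hC Z x N b ζ hR hx hζ
    (lt_trans (half_pos ha) hcon)
  obtain ⟨d, hd⟩ : ∃ d, d = -(e / k + ζ) := ⟨_, rfl⟩
  have had : a / 2 < d := by rw [hd]; exact lt_of_lt_of_le hcon hle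
  have hd0 : 0 < d := lt_trans (half_pos ha) had
  obtain ⟨h, hHh, hZh, hcst⟩ := hKH K R ξ J v a V H c hC hM hT Z κ y k e ζ hHZ hy hye hζ
    (by rw [← hd]; exact hd0)
  have hξh : ξ h = 0 := hT.xi_inv hHh
  have hh0 : h ≠ 0 := by
    rintro rfl
    exact hcst ⟨0, by rw [map_zero]⟩
  obtain ⟨t1, t2, t3, t4, t5, t6⟩ := hTW K R ξ J a hC Z y k e ζ hy hye hζ
  rw [← hd] at t3
  obtain ⟨u, hu0, hLD, hud, -, huh⟩ := hDE K R ξ J a hC Z y k d hZ hy.ne hy.pos hy.dvz hd0 t3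
  have hcone : IsCone R ξ := hC.toIsCone
  have hk0 : (0 : ℝ) < k := Nat.cast_pos.2 hy.pos
  -- the slopes
  obtain ⟨S, hS⟩ : ∃ S : Set ℝ, S = {r : ℝ | ∃ (j : ℕ) (φ : K) (w : ℝ), 0 < j ∧ φ ∈ Sj R h j ∧
    φ ≠ 0 ∧ ξ φ = (w : ℂ) • φ ∧ r = w / j} := ⟨_, rfl⟩
  have hne : S.Nonempty := by
    obtain ⟨φ, w, h1, h2, h3⟩ := exists_sj hcone hξh
    rw [hS]
    exact ⟨_, 1, φ, w, Nat.one_pos, h1, h2, h3, rfl⟩
  have hlow : ∀ r ∈ S, a / 4 ≤ r := by
    intro r hr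
    rw [hS] at hr
    obtain ⟨j, φ, w, hj, h1, h2, h3, rfl⟩ := hr
    have hj0 : (0 : ℝ) < j := Nat.cast_pos.2 hj
    rw [le_div_iff₀ hj0]
    have := slope_bd hC hM hξh hcst h1 h2 h3
    linarith
  obtain ⟨ν, hν⟩ : ∃ ν, ν = sInf S := ⟨_, rfl⟩
  have hν4 : a / 4 ≤ ν := by rw [hν]; exact le_csInf hne hlow
  have hν0 : 0 < ν := by linarith
  have hbdd : BddBelow S := ⟨a / 4, hlow⟩
  have hνj : ∀ (j : ℕ) (φ : K) (w : ℝ), 0 < j → φ ∈ Sj R h j → φ ≠ 0 → ξ φ = (w : ℂ) • φ →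
      ν * j ≤ w := by
    intro j φ w hj h1 h2 h3
    have hj0 : (0 : ℝ) < j := Nat.cast_pos.2 hj
    have h4 : ν ≤ w / j := by
      rw [hν]
      refine csInf_le hbdd ?_
      rw [hS]
      exact ⟨j, φ, w, hj, h1, h2, h3, rfl⟩
    rwa [le_div_iff₀ hj0] at h4
  -- the values of the elements of `S_j`
  have hval : ∀ (j : ℕ) (φ : K), φ ∈ Sj R h j → φ ≠ 0 → j * (ν / d) ≤ u.val φ := by
    intro j φ hφ hφ0
    refine sj_val hcone hξh (fun φ w hφ hφ0 hw => ?_) hφ hφ0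
    rcases Nat.eq_zero_or_pos j with hj | hj
    · rw [hj, Nat.cast_zero, zero_mul]
      exact hu0 φ hφ.1 hφ0
    obtain ⟨i, hi0, hi⟩ := hud φ w hφ.1 hφ0 hw
    have hZhj : Z (h ^ j) = 0 := by
      rw [Derivation.leibniz_pow, hZh, smul_zero, smul_zero]
    have hψ : y ^ i * tw Z y k φ i ^ k ∈ Sj R h (j * k) := by
      refine ⟨t1 φ hφ.1 i, ?_⟩
      have h1 := t1 _ hφ.2 i
      rw [t6 _ hZhj, mul_pow, ← pow_mul] at h1
      rw [mul_assoc]
      exact h1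
    have hψ0 : y ^ i * tw Z y k φ i ^ k ≠ 0 := mul_ne_zero (pow_ne_zero _ hy.ne)
      (pow_ne_zero _ hi0)
    have h2 := hνj (j * k) _ _ (Nat.mul_pos hj hy.pos) hψ hψ0
      (e_mul (e_pow hye i) (e_pow (t2 φ w hw i) k))
    have h3 : (i : ℝ) * e + k * (w + i * ζ) = k * (w - i * d) := by
      rw [hd]
      field_simp
      ring
    rw [h3] at h2
    push_cast at h2
    have h4 : ν * j ≤ w - i * d := by
      have h5 : k * (ν * j) ≤ k * (w - i * d) := by linarith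
      exact le_of_mul_le_mul_left h5 hk0
    rw [hi]
    have h5 : (j : ℝ) * (ν / d) = (ν * j) / d := by ring
    have h6 : w / d - i = (w - i * d) / d := by
      field_simp
    rw [h5, h6]
    exact div_le_div_of_nonneg_right h4 hd0.le
  -- the end
  have hend : ∀ r ∈ S, a * ν ≤ 2 * r * (a - d) := by
    intro r hr
    rw [hS] at hr
    obtain ⟨j, φ, w, hj, h1, h2, h3, rfl⟩ := hr
    have hj0 : (0 : ℝ) < j := Nat.cast_pos.2 hj
    have h4 := Helper37.D4.s_V5 K R ξ J v a V hC hM h hξh hcst u (a / d - 1) (ν / d)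
      (div_pos hν0 hd0) (huh h hh0 hξh hZh).ge hLD hval j φ w hj h1 h2 h3
    have h5 : a * j * (ν / d) * d = a * ν * j := by field_simp
    have h6 : 2 * w * (a / d - 1) * d = 2 * w * (a - d) := by field_simp
    have h7 := mul_le_mul_of_nonneg_right h4 hd0.le
    rw [h5, h6] at h7
    have h8 : 2 * (w / j) * (a - d) = 2 * w * (a - d) / j := by field_simp
    rw [h8, le_div_iff₀ hj0]
    exact h7
  have hda : d < a := by
    by_contra hcon2
    push Not at hcon2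
    obtain ⟨r, hr⟩ := hne
    have h1 := hend r hr
    have h2 := hlow r hr
    have h3 : 0 < a * ν := mul_pos ha hν0
    have h4 : 2 * r * (a - d) ≤ 0 := by
      have : 0 ≤ 2 * r := by linarith
      exact mul_nonpos_of_nonneg_of_nonpos this (by linarith)
    linarith
  have hν2 : a * ν / (2 * (a - d)) ≤ ν := by
    conv_rhs => rw [hν]
    refine le_csInf hne fun r hr => ?_
    rw [div_le_iff₀ (by linarith)]
    have := hend r hr
    linarith
  rw [div_le_iff₀ (by linarith)] at hν2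
  have h1 : ν * a ≤ ν * (2 * (a - d)) := by linarith
  have h2 := le_of_mul_le_mul_left h1 hν0
  linarith

end Pool.Agent.Helper76.D4
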