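import Pool.Agent.Helper88.D4.Stmts6
import Pool.Agent.Helper76.D4.Base

/-!
# D4 stage 6: pole orders and complementary vectors
-/

set_option autoImplicit false

namespace Pool.Agent.Helper76.D4

open Module Filter Topology Pool.Agent.Helper37.SD Pool.Agent.Helper20.TS Pool.Agent.Helper88.D4

/-- (POL) -/
theorem s_POL : S_POL := by
  intro K _ _ R ξ hC u hu D hD
  classical
  obtain ⟨S, hS⟩ := hC.fg
  have hex : ∃ g ∈ S, D g ≠ 0 := by
    by_contra hno
    push Not at hno
    apply hD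
    have hR : ∀ x ∈ R, D x = 0 := by
      intro x hx
      rw [← hS] at hx
      induction hx using Algebra.adjoin_induction with
      | mem x hx => exact hno x hx
      | algebraMap r => exact D.map_algebraMap r
      | add x y _ _ hx hy => rw [map_add, hx, hy, add_zero]
      | mul x y _ _ hx hy => rw [Derivation.leibniz, hx, hy, smul_zero, smul_zero, add_zero]
    ext x
    obtain ⟨a, ha, b, hb, hb0, rfl⟩ := hC.frac x
    have h1 : D (b * (a / b)) = b • D (a / b) + (a / b) • D b := Derivation.leibniz _ _ _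
    rw [mul_div_cancel₀ _ hb0, hR a ha, hR b hb, smul_zero, add_zero, smul_eq_mul] at h1
    rcases mul_eq_zero.1 h1.symm with h2 | h2
    · exact absurd h2 hb0
    · rw [h2]
      rfl
  obtain ⟨g1, hg1, hg1'⟩ := hex
  obtain ⟨g0, hg0, hmin⟩ := Finset.exists_min_image (S.filter fun g => D g ≠ 0)
    (fun g => u.val (D g)) ⟨g1, Finset.mem_filter.2 ⟨hg1, hg1'⟩⟩
  rw [Finset.mem_filter] at hg0
  obtain ⟨n, hn⟩ := hu.int (D g0) hg0.2
  have hR : ∀ x ∈ R, u.Ge (n : ℝ) (D x) := by
    intro x hx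
    rw [← hS] at hx
    induction hx using Algebra.adjoin_induction with
    | mem x hx =>
      by_cases h : D x = 0
      · exact Or.inl h
      · have h1 := hmin x (Finset.mem_filter.2 ⟨hx, h⟩)
        simp only [hn] at h1
        exact Or.inr h1
    | algebraMap r => exact Or.inl (D.map_algebraMap r)
    | add x y _ _ hx hy =>
      rw [map_add]
      exact u.ge_add hx hy
    | mul x y hx' hy' hx hy =>
      rw [hS] at hx' hy'
      rw [Derivation.leibniz, smul_eq_mul, smul_eq_mul]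
      have h1 := u.ge_mul (ge_of_mem hu hx') hy
      have h2 := u.ge_mul (ge_of_mem hu hy') hx
      rw [zero_add] at h1 h2
      exact u.ge_add h1 h2
  have hg0R : g0 ∈ R := by
    rw [← hS]
    exact Algebra.subset_adjoin hg0.1
  refine ⟨-n, ?_, g0, ge_of_mem hu hg0R, hg0.2, ?_⟩
  · intro F hF
    push_cast
    rw [neg_neg]
    by_cases hF0 : F = 0
    · rw [hF0, map_zero]
      exact Or.inl rfl
    obtain ⟨s, hs, hs0, hus, hsF⟩ := hu.loc F hF0 (hF.resolve_left hF0)
    have h1 : D (s * F) = s * D F + F * D s := by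
      rw [Derivation.leibniz, smul_eq_mul, smul_eq_mul]
    have h2 : D F = (D (s * F) - F * D s) / s := by
      rw [h1]
      field_simp
      ring
    rw [h2]
    have h3 : u.Ge (n : ℝ) (D (s * F) - F * D s) := by
      refine u.ge_sub (hR _ hsF) ?_
      have := u.ge_mul hF (hR s hs)
      rwa [zero_add] at this
    have h4 := u.ge_div h3 hs0
    rwa [hus, sub_zero] at h4
  · rw [hn]
    push_cast
    rw [neg_neg]

theorem val_zpow {K : Type} [Field K] [Algebra ℂ K] (u : RVal K) {p : K} (hp : p ≠ 0) (n : ℤ) :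
    u.val (p ^ n) = n * u.val p := by
  obtain ⟨m, rfl | rfl⟩ := n.eq_nat_or_neg
  · rw [zpow_natCast, u.val_pow hp]
    push_cast
    rfl
  · rw [zpow_neg, zpow_natCast, u.val_inv (pow_ne_zero m hp), u.val_pow hp]
    push_cast
    ring

/-- (LAT) -/
theorem s_LAT : S_LAT := by
  intro K _ _ R ξ s D P hC hF u hu x y t hP
  obtain ⟨p, hp, hp0, hup⟩ := hu.unif
  set Z : Derivation ℂ K K := x • D 0 + y • D 1 with hZ
  obtain ⟨hPg, F0, hF0, hZF0, hZv⟩ := hP
  have hZa : ∀ F, Z F = x * D 0 F + y * D 1 F := fun F => by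
    rw [hZ]; rfl
  -- a complementary vector
  have hxy : x ≠ 0 ∨ y ≠ 0 := by
    by_contra h
    push Not at h
    apply hZF0
    rw [hZa, h.1, h.2, zero_mul, zero_mul, add_zero]
  obtain ⟨a, b, hab⟩ : ∃ a b : K, x * b - y * a ≠ 0 := by
    rcases hxy with h | h
    · exact ⟨0, 1, by rwa [mul_one, mul_zero, sub_zero]⟩
    · exact ⟨1, 0, by rw [mul_zero, mul_one, zero_sub]; exact neg_ne_zero.2 h⟩
  set c : K := (a * D 0 F0 + b * D 1 F0) / Z F0 with hc
  set a' : K := a - c * x with ha'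
  set b' : K := b - c * y with hb'
  have hdet : x * b' - y * a' = x * b - y * a := by rw [ha', hb']; ring
  set W : Derivation ℂ K K := a' • D 0 + b' • D 1 with hW
  have hWa : ∀ F, W F = a' * D 0 F + b' * D 1 F := fun F => by
    rw [hW]; rfl
  have hWF0 : W F0 = 0 := by
    have h1 : c * Z F0 = a * D 0 F0 + b * D 1 F0 := by
      rw [hc]
      field_simp
    rw [hWa, ha', hb']
    have h2 : (a - c * x) * D 0 F0 + (b - c * y) * D 1 F0 =
        (a * D 0 F0 + b * D 1 F0) - c * (x * D 0 F0 + y * D 1 F0) := by ring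
    rw [h2, ← hZa, h1, sub_self]
  have hW0 : W ≠ 0 := by
    intro h
    obtain ⟨h1, h2⟩ := hF.ind a' b' h
    apply hab
    rw [← hdet, h1, h2, mul_zero, mul_zero, sub_zero]
  obtain ⟨τ, hτ, F1, hF1, hWF1, hWv⟩ := s_POL K R ξ hC u hu W hW0
  have hpτ : p ^ τ ≠ 0 := zpow_ne_zero τ hp0
  have hpv : u.val (p ^ τ) = τ := by rw [val_zpow u hp0, hup, mul_one]
  have hEa : ∀ F, ((p ^ τ * a') • D 0 + (p ^ τ * b') • D 1 : Derivation ℂ K K) F = p ^ τ * W F := by
    intro F
    rw [hWa]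
    have : ((p ^ τ * a') • D 0 + (p ^ τ * b') • D 1 : Derivation ℂ K K) F =
        (p ^ τ * a') * D 0 F + (p ^ τ * b') * D 1 F := rfl
    rw [this]
    ring
  have hdet' : x * (p ^ τ * b') - y * (p ^ τ * a') = p ^ τ * (x * b - y * a) := by
    rw [← hdet]; ring
  have hdne : x * (p ^ τ * b') - y * (p ^ τ * a') ≠ 0 := by
    rw [hdet']
    exact mul_ne_zero hpτ hab
  refine ⟨p ^ τ * a', p ^ τ * b', ?_, hdne, ?_⟩
  · intro F hFg
    rw [hEa]
    have h1 : u.Ge (τ : ℝ) (p ^ τ) := Or.inr (by rw [hpv])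
    have h2 := u.ge_mul h1 (hτ F hFg)
    rwa [add_neg_cancel] at h2
  · set Q : K := D 0 F0 * D 1 F1 - D 1 F0 * D 0 F1 with hQ
    have hEF1 : p ^ τ * W F1 ≠ 0 := mul_ne_zero hpτ hWF1
    have hkey : Z F0 * (p ^ τ * W F1) = (x * (p ^ τ * b') - y * (p ^ τ * a')) * Q := by
      have h1 : Z F0 * (p ^ τ * W F1) = p ^ τ * (Z F0 * W F1 - Z F1 * W F0) := by
        rw [hWF0]; ring
      rw [h1, hZa, hZa, hWa, hWa, hQ]
      ring
    have hQ0 : Q ≠ 0 := by
      intro h
      rw [h, mul_zero] at hkey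
      exact mul_ne_zero hZF0 hEF1 hkey
    have hv := congrArg u.val hkey
    rw [u.map_mul _ _ hZF0 hEF1, u.map_mul _ _ hpτ hWF1, u.map_mul _ _ hdne hQ0, hZv, hWv,
      hpv] at hv
    have hreg := hF.reg u hu F0 F1 hF0 hF1
    have h3 : 0 ≤ u.val (P * Q) := hreg.resolve_left (mul_ne_zero hF.ne hQ0)
    rw [u.map_mul _ _ hF.ne hQ0] at h3
    linarith

end Pool.Agent.Helper76.D4
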