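import Pool.Agent.Helper76.D4.Stmts7
import Pool.Agent.Helper76.D4.PolLat
import Pool.Agent.Helper87.D4.DVZ

/-!
# Project D4 (MP_e1889a_ag), stage 7: the last nonzero iterate of the twisted derivation
-/

set_option autoImplicit false

namespace Pool.Agent.Helper76.D4

open Module Pool.Agent.Helper37.SD Pool.Agent.Helper20.TS Pool.Agent.Helper88.D4
open Pool.Agent.Helper87.D4.DVZ (LZ LZ_prop div_wt)

variable {K : Type} [Field K] [Algebra ℂ K]

/-- the iterates `x, Z x - N δ x, …` -/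
noncomputable def nb (Z : Derivation ℂ K K) (δ : K) (N : ℕ) (x : K) : ℕ → K
  | 0 => x
  | i + 1 => Z (nb Z δ N x i) - (((N : ℤ) - (i : ℤ) : ℤ) : K) * δ * nb Z δ N x i

theorem nb_zero (Z : Derivation ℂ K K) (δ : K) (N : ℕ) (x : K) : nb Z δ N x 0 = x := rfl

theorem nb_succ (Z : Derivation ℂ K K) (δ : K) (N : ℕ) (x : K) (i : ℕ) : nb Z δ N x (i + 1) =
    Z (nb Z δ N x i) - (((N : ℤ) - (i : ℤ) : ℤ) : K) * δ * nb Z δ N x i := rfl

theorem ge_int (u : RVal K) (k : ℤ) : u.Ge 0 (k : K) := by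
  by_cases h : k = 0
  · left
    rw [h, Int.cast_zero]
  · right
    have h1 : (k : K) = algebraMap ℂ K (k : ℂ) := by rw [map_intCast]
    rw [h1, u.map_const _ (by exact_mod_cast h)]

theorem der_zpow (Z : Derivation ℂ K K) {p : K} (hp : p ≠ 0) (n : ℤ) :
    Z (p ^ n) = (n : K) * (Z p / p) * p ^ n := by
  rw [Derivation.leibniz_zpow, zpow_sub_one₀ hp, zsmul_eq_mul, smul_eq_mul]
  field_simp

/-- one step -/
theorem nb_step {u : RVal K} {p : K} (hp : p ≠ 0) (hup : u.val p = 1) {Z : Derivation ℂ K K}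
    {δ : K} {t : ℤ} (hZ : ∀ F, u.Ge 0 F → u.Ge (-(t : ℝ)) (Z F))
    (hδ : u.Ge (-(t : ℝ)) (δ - (t : K) * (Z p / p))) {k : ℤ} {g : K}
    (hg : u.Ge (k * t : ℝ) g) : u.Ge ((k - 1) * t : ℝ) (Z g - (k : K) * δ * g) := by
  set Q : K := (p ^ (k * t))⁻¹ * g with hQ
  have hpk : p ^ (k * t) ≠ 0 := zpow_ne_zero _ hp
  have hpv : u.val (p ^ (k * t)) = (k * t : ℝ) := by
    rw [val_zpow u hp, hup]
    push_cast
    ring
  have hgQ : g = p ^ (k * t) * Q := by
    rw [hQ, ← mul_assoc, mul_inv_cancel₀ hpk, one_mul]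
  have hQ0 : u.Ge 0 Q := by
    have h1 : u.Ge (-(k * t : ℝ)) (p ^ (k * t))⁻¹ := Or.inr (by rw [u.val_inv hpk, hpv])
    have h2 := u.ge_mul h1 hg
    rwa [neg_add_cancel] at h2
  have e : Z g - (k : K) * δ * g =
      p ^ (k * t) * (Z Q - (k : K) * ((δ - (t : K) * (Z p / p)) * Q)) := by
    rw [hgQ, Derivation.leibniz, der_zpow Z hp]
    simp only [smul_eq_mul]
    push_cast
    ring
  rw [e]
  have h3 : u.Ge (-(t : ℝ)) ((k : K) * ((δ - (t : K) * (Z p / p)) * Q)) := by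
    have h4 := u.ge_mul (ge_int u k) (u.ge_mul hδ hQ0)
    simpa using h4
  have h5 := u.ge_mul (Or.inr hpv.ge : u.Ge (k * t : ℝ) (p ^ (k * t)))
    (u.ge_sub (hZ Q hQ0) h3)
  have e2 : (k * t : ℝ) + -(t : ℝ) = (k - 1) * t := by ring
  rwa [e2] at h5

/-- the order of the iterates -/
theorem nb_ge {u : RVal K} {p : K} (hp : p ≠ 0) (hup : u.val p = 1) {Z : Derivation ℂ K K}
    {δ : K} {t : ℤ} (hZ : ∀ F, u.Ge 0 F → u.Ge (-(t : ℝ)) (Z F))
    (hδ : u.Ge (-(t : ℝ)) (δ - (t : K) * (Z p / p))) {N : ℕ} {x : K}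
    (hx : u.Ge ((N : ℝ) * t) x) (i : ℕ) :
    u.Ge (((N : ℝ) - i) * t) (nb Z δ N x i) := by
  induction i with
  | zero =>
    rw [nb_zero, Nat.cast_zero, sub_zero]
    exact hx
  | succ i ih =>
    rw [nb_succ]
    have h1 := nb_step hp hup hZ hδ (k := (N : ℤ) - (i : ℤ)) (g := nb Z δ N x i)
      (by push_cast; exact ih)
    push_cast at h1 ⊢
    have e : ((N : ℝ) - (i + 1)) * t = ((N : ℝ) - i - 1) * t := by ring
    rw [e]
    exact h1

/-- the weights of the iterates -/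
theorem nb_wt {ξ Z : Derivation ℂ K K} {ζ b : ℝ} (hζ : ⁅ξ, Z⁆ = (ζ : ℂ) • Z) {δ : K}
    (hδ : ξ δ = (ζ : ℂ) • δ) {N : ℕ} {x : K} (hx : ξ x = (b : ℂ) • x) (i : ℕ) :
    ξ (nb Z δ N x i) = ((b + i * ζ : ℝ) : ℂ) • nb Z δ N x i := by
  have hZ : ∀ y, ξ (Z y) = Z (ξ y) + (ζ : ℂ) • Z y := fun y => by
    have h1 : ξ (Z y) - Z (ξ y) = (ζ : ℂ) • Z y := by
      rw [← Derivation.commutator_apply, hζ, Derivation.smul_apply]
    rw [← h1]
    ring
  have hn : ∀ k : ℤ, ξ ((k : ℤ) : K) = 0 := fun k => by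
    have h1 : ((k : ℤ) : K) = algebraMap ℂ K (k : ℂ) := by rw [map_intCast]
    rw [h1, Derivation.map_algebraMap]
  induction i with
  | zero => simpa [nb_zero] using hx
  | succ i ih =>
    rw [nb_succ, map_sub, hZ, ih, Derivation.leibniz, Derivation.leibniz, hn, hδ, ih,
      Derivation.map_smul]
    simp only [smul_eq_mul, Algebra.smul_def]
    simp only [Complex.ofReal_add, Complex.ofReal_mul, Complex.ofReal_natCast, map_add, map_mul,
      map_natCast, Nat.cast_add, Nat.cast_one, Complex.ofReal_one, map_one]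
    ring

/-- (NB) -/
theorem s_NB (hDG : S_DG) : S_NB := by
  intro K _ _ R ξ J a hC Z x N b ζ hR hx hζ hd
  have hchar : CharZero K := charZero_of_injective_algebraMap (algebraMap ℂ K).injective
  have hA := hC.alt
  obtain ⟨w, z, hz, hbz⟩ := Helper46.D4.hom_frame hC.toIsCone hA
  obtain ⟨δ, hδ⟩ : ∃ δ : K, δ = LZ J Z z / brk J z := ⟨_, rfl⟩
  have hdiv : IsDiv J Z δ := by
    intro f
    have h1 := LZ_prop hA hC.trdeg Z hbz f
    rw [← hδ, LZ] at h1
    linear_combination h1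
  have hδw : ξ δ = (ζ : ℂ) • δ := by
    have h1 := div_wt hA hC.hom hζ (w := fun i => (w i : ℂ)) (fun i => (hz i).2) hbz
      (x := (1 : K)) (b := 0) (by rw [Derivation.map_one_eq_zero, zero_smul]) one_ne_zero 1
    rw [Derivation.map_one_eq_zero, zero_div, mul_zero, sub_zero, ← hδ] at h1
    exact h1
  have hNR : (0 : ℝ) < N := Nat.cast_pos.2 hR.pos
  have hneg : b + N * ζ < 0 := by
    have h1 := mul_pos hd hNR
    have h2 : -(b / N + ζ) * N = -(b + N * ζ) := by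
      field_simp
    rw [h2] at h1
    linarith
  -- the last iterate is zero
  have hge : ∀ u, PDiv R u → ∃ t : ℤ, (∀ F, u.Ge 0 F → u.Ge (-(t : ℝ)) (Z F)) ∧
      ∀ i : ℕ, u.Ge (((N : ℝ) - i) * t) (nb Z δ N x i) := by
    intro u hu
    obtain ⟨t, ht, hZt⟩ := hR.reg u hu
    obtain ⟨p, -, hp0, hp1⟩ := hu.unif
    exact ⟨t, hZt, nb_ge hp0 hp1 hZt (hDG K R ξ J a hC Z δ hdiv u hu t hZt p hp0 hp1)
      (Or.inr ht)⟩
  have hN0 : nb Z δ N x N = 0 := by
    by_contra hne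
    have hmem : nb Z δ N x N ∈ R := by
      by_contra hcon
      obtain ⟨u, hu, hlt⟩ := Helper11.D4.s_EX1 K R hC.frac hC.fg hC.normal _ hcon
      obtain ⟨t, -, ht⟩ := hge u hu
      have h1 := (ht N).resolve_left hne
      rw [sub_self, zero_mul] at h1
      linarith
    have h1 := Helper94.D4.eig_nonneg hC.toIsCone hmem hne (nb_wt hζ hδw hx N)
    linarith
  -- the first iterate which is zero
  have hex : ∃ i, nb Z δ N x i = 0 := ⟨N, hN0⟩
  classical
  obtain ⟨i, hi0, hi1⟩ : ∃ i, nb Z δ N x (i + 1) = 0 ∧ nb Z δ N x i ≠ 0 ∧ i < N := by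
    obtain ⟨m, hm⟩ : ∃ m, m = Nat.find hex := ⟨_, rfl⟩
    have h1 : nb Z δ N x m = 0 := by rw [hm]; exact Nat.find_spec hex
    have h2 : m ≤ N := by rw [hm]; exact Nat.find_min' hex hN0
    rcases Nat.eq_zero_or_pos m with h3 | h3
    · rw [h3, nb_zero] at h1
      exact absurd h1 hR.ne
    · refine ⟨m - 1, ?_, ?_, by omega⟩
      · rw [Nat.sub_add_cancel h3]
        exact h1
      · exact Nat.find_min hex (by omega)
  obtain ⟨hi1, hiN⟩ := hi1
  obtain ⟨k, hk⟩ : ∃ k, N = i + k := ⟨N - i, by omega⟩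
  have hkpos : 0 < k := by omega
  have hkK : (k : K) ≠ 0 := Nat.cast_ne_zero.2 hkpos.ne'
  have hkR : (0 : ℝ) < k := Nat.cast_pos.2 hkpos
  have hNk : (N : ℝ) = i + k := by exact_mod_cast hk
  refine ⟨nb Z δ N x i, k, b + i * ζ, ⟨⟨hi1, hkpos, ?_⟩, ?_⟩, nb_wt hζ hδw hx i, ?_⟩
  · intro u hu
    obtain ⟨t, hZt, ht⟩ := hge u hu
    refine ⟨t, ?_, hZt⟩
    have h1 := (ht i).resolve_left hi1
    have e : (N : ℝ) - i = k := by rw [hNk]; ring
    rwa [e] at h1
  · rw [nb_succ] at hi0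
    have e : (((N : ℤ) - (i : ℤ) : ℤ) : K) = k := by
      rw [hk]
      push_cast
      ring
    rw [e] at hi0
    have h1 : (1 / (k : K)) * (Z (nb Z δ N x i) / nb Z δ N x i) = δ := by
      rw [sub_eq_zero.1 hi0]
      field_simp
    rw [h1]
    exact hdiv
  · have e : (b + i * ζ) / k + ζ = (b + N * ζ) / k := by
      rw [hNk]
      field_simp
      ring
    have e2 : b / N + ζ = (b + N * ζ) / N := by
      field_simp
    rw [e, e2, neg_le_neg_iff, div_le_div_iff₀ hkR hNR]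
    have hki : (k : ℝ) ≤ N := by
      rw [hNk]
      have : (0 : ℝ) ≤ i := Nat.cast_nonneg i
      linarith
    nlinarith

end Pool.Agent.Helper76.D4
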