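import Pool.Agent.Helper88.D4.Stmts6
import Pool.Agent.Helper76.D4.Base

/-!
# D4 stage 6: integrality of the coefficients of binary forms
-/

set_option autoImplicit false

namespace Pool.Agent.Helper76.D4

open Module Filter Topology Pool.Agent.Helper37.SD Pool.Agent.Helper20.TS Pool.Agent.Helper88.D4

section coef

variable {K : Type} [Field K] [Algebra ℂ K]

theorem basis_map {s : Finset ℕ} (i : ℕ) :
    Lagrange.basis s (fun j : ℕ => algebraMap ℂ K (j : ℂ)) i =
      (Lagrange.basis s (fun j : ℕ => (j : ℂ)) i).map (algebraMap ℂ K) := by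
  unfold Lagrange.basis Lagrange.basisDivisor
  rw [Polynomial.map_prod]
  refine Finset.prod_congr rfl fun j _ => ?_
  rw [Polynomial.map_mul, Polynomial.map_C, Polynomial.map_sub, Polynomial.map_X,
    Polynomial.map_C, map_inv₀ (algebraMap ℂ K), map_sub (algebraMap ℂ K)]

/-- a polynomial with integral values at the constants has integral coefficients -/
theorem coef_ge (u : RVal K) {c : ℝ} {g : Polynomial K}
    (h : ∀ l : ℂ, u.Ge c (g.eval (algebraMap ℂ K l))) (k : ℕ) : u.Ge c (g.coeff k) := by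
  classical
  set s : Finset ℕ := Finset.range (g.natDegree + 1) with hs
  have hinj : Set.InjOn (fun j : ℕ => algebraMap ℂ K (j : ℂ)) s := by
    intro a _ b _ hab
    have h1 := (algebraMap ℂ K).injective hab
    exact_mod_cast h1
  have hdeg : g.degree < s.card := by
    rw [hs, Finset.card_range]
    refine lt_of_le_of_lt Polynomial.degree_le_natDegree ?_
    exact_mod_cast Nat.lt_succ_self _
  have h1 := Lagrange.eq_interpolate hinj hdeg
  rw [h1, Lagrange.interpolate_apply, Polynomial.finsetSum_coeff]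
  refine u.ge_sum _ _ fun i _ => ?_
  rw [Polynomial.coeff_C_mul, basis_map, Polynomial.coeff_map]
  have h2 : u.Ge 0 (algebraMap ℂ K ((Lagrange.basis s (fun j : ℕ => (j : ℂ)) i).coeff k)) := by
    by_cases h0 : (Lagrange.basis s (fun j : ℕ => (j : ℂ)) i).coeff k = 0
    · rw [h0, map_zero]
      exact Or.inl rfl
    · exact Or.inr (by rw [u.map_const _ h0])
  have h3 := u.ge_mul (h (i : ℂ)) h2
  rwa [add_zero] at h3

end coef

section lin

open Polynomial

/-- `∑ f i A ^ i B ^ (q - i)` -/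
noncomputable def hev {R S : Type} [CommRing R] [CommRing S] (φ : R →+* S) (f : Polynomial R)
    (q : ℕ) (A B : S) : S :=
  ∑ i ∈ Finset.range (q + 1), φ (f.coeff i) * A ^ i * B ^ (q - i)

theorem hev_mul_X_sub {R S : Type} [CommRing R] [CommRing S] (φ : R →+* S) (f : Polynomial R)
    (q : ℕ) (A B : S) (hf : f.natDegree ≤ q) (ρ : R) :
    hev φ (f * (X - C ρ)) (q + 1) A B = hev φ f q A B * (A - φ ρ * B) := by
  unfold hev
  have hc : ∀ i, (f * (X - C ρ)).coeff (i + 1) = f.coeff i - f.coeff (i + 1) * ρ := by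
    intro i
    rw [mul_sub, coeff_sub, coeff_mul_X, coeff_mul_C]
  have hc0 : (f * (X - C ρ)).coeff 0 = - f.coeff 0 * ρ := by
    rw [mul_sub, coeff_sub, coeff_mul_C, mul_coeff_zero, coeff_X_zero, mul_zero, zero_sub, neg_mul]
  have htop : f.coeff (q + 1) = 0 := coeff_eq_zero_of_natDegree_lt (by omega)
  -- the sum with `ρ`
  have h2 : ∑ i ∈ Finset.range (q + 1 + 1), φ (f.coeff i * ρ) * A ^ i * B ^ (q + 1 - i) =
      (∑ i ∈ Finset.range (q + 1), φ (f.coeff i) * A ^ i * B ^ (q - i)) * (φ ρ * B) := by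
    rw [Finset.sum_range_succ, htop, zero_mul, map_zero, zero_mul, zero_mul, add_zero,
      Finset.sum_mul]
    refine Finset.sum_congr rfl fun i hi => ?_
    rw [Finset.mem_range] at hi
    have : q + 1 - i = (q - i) + 1 := by omega
    rw [this, pow_succ, map_mul]
    ring
  have h1 : ∑ i ∈ Finset.range (q + 1), φ (f.coeff i) * A ^ (i + 1) * B ^ (q + 1 - (i + 1)) =
      (∑ i ∈ Finset.range (q + 1), φ (f.coeff i) * A ^ i * B ^ (q - i)) * A := by
    rw [Finset.sum_mul]
    refine Finset.sum_congr rfl fun i _ => ?_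
    have : q + 1 - (i + 1) = q - i := by omega
    rw [this, pow_succ]
    ring
  have h3 : (∑ i ∈ Finset.range (q + 1), φ (f.coeff i) * A ^ i * B ^ (q - i)) *
      (A - φ ρ * B) = (∑ i ∈ Finset.range (q + 1), φ (f.coeff i) * A ^ i * B ^ (q - i)) * A -
      (∑ i ∈ Finset.range (q + 1), φ (f.coeff i) * A ^ i * B ^ (q - i)) * (φ ρ * B) := by ring
  have h5 : ∑ i ∈ Finset.range (q + 1 + 1), φ ((f * (X - C ρ)).coeff i) * A ^ i *
      B ^ (q + 1 - i) = ∑ i ∈ Finset.range (q + 1), φ ((f * (X - C ρ)).coeff (i + 1)) *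
      A ^ (i + 1) * B ^ (q + 1 - (i + 1)) + φ ((f * (X - C ρ)).coeff 0) * A ^ 0 *
      B ^ (q + 1 - 0) := Finset.sum_range_succ' _ _
  have h6 : ∑ i ∈ Finset.range (q + 1 + 1), φ (f.coeff i * ρ) * A ^ i * B ^ (q + 1 - i) =
      ∑ i ∈ Finset.range (q + 1), φ (f.coeff (i + 1) * ρ) * A ^ (i + 1) *
      B ^ (q + 1 - (i + 1)) + φ (f.coeff 0 * ρ) * A ^ 0 * B ^ (q + 1 - 0) :=
    Finset.sum_range_succ' _ _
  rw [h3, ← h1, ← h2, h5, h6]
  have h4 : ∑ i ∈ Finset.range (q + 1), φ ((f * (X - C ρ)).coeff (i + 1)) * A ^ (i + 1) *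
      B ^ (q + 1 - (i + 1)) = ∑ i ∈ Finset.range (q + 1), φ (f.coeff i) * A ^ (i + 1) *
      B ^ (q + 1 - (i + 1)) - ∑ i ∈ Finset.range (q + 1), φ (f.coeff (i + 1) * ρ) *
      A ^ (i + 1) * B ^ (q + 1 - (i + 1)) := by
    rw [← Finset.sum_sub_distrib]
    refine Finset.sum_congr rfl fun i _ => ?_
    rw [hc, map_sub]
    ring
  rw [h4, hc0, map_mul, map_neg, map_mul]
  ring

/-- the form with linear factors of multiplicity `i` -/
theorem hev_pow_mul {R S : Type} [CommRing R] [CommRing S] (φ : R →+* S) (g : Polynomial R)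
    (q : ℕ) (A B : S) (hg : g.natDegree ≤ q) (ρ : R) (i : ℕ) :
    hev φ ((X - C ρ) ^ i * g) (q + i) A B = (A - φ ρ * B) ^ i * hev φ g q A B := by
  induction i with
  | zero => rw [pow_zero, one_mul, add_zero, pow_zero, one_mul]
  | succ i ih =>
    have h1 : (X - C ρ) ^ (i + 1) * g = ((X - C ρ) ^ i * g) * (X - C ρ) := by ring
    have h2 : ((X - C ρ) ^ i * g).natDegree ≤ q + i := by
      refine (natDegree_mul_le).trans ?_
      have h3 : ((X - C ρ) ^ i).natDegree ≤ i := by
        refine (natDegree_pow_le).trans ?_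
        have := natDegree_X_sub_C_le ρ
        nlinarith
      omega
    rw [h1, show q + (i + 1) = (q + i) + 1 from rfl, hev_mul_X_sub φ _ _ A B h2 ρ, ih]
    ring

theorem hev_C {R S : Type} [CommRing R] [CommRing S] (φ : R →+* S) (c : R) (A B : S) :
    hev φ (C c) 0 A B = φ c := by
  unfold hev
  simp

/-- the form of a product of linear factors -/
theorem hev_prod {R S : Type} [CommRing R] [CommRing S] (φ : R →+* S) (c : R) {ι : Type}
    (s : Finset ι) (ρ : ι → R) (A B : S) :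
    hev φ (C c * ∏ j ∈ s, (X - C (ρ j))) s.card A B = φ c * ∏ j ∈ s, (A - φ (ρ j) * B) := by
  classical
  induction s using Finset.induction_on with
  | empty => rw [Finset.prod_empty, mul_one, Finset.card_empty, hev_C, Finset.prod_empty, mul_one]
  | insert a s ha ih =>
    have hd : (C c * ∏ j ∈ s, (X - C (ρ j))).natDegree ≤ s.card := by
      refine (natDegree_mul_le).trans ?_
      have h1 : (∏ j ∈ s, (X - C (ρ j))).natDegree ≤ ∑ j ∈ s, (X - C (ρ j)).natDegree :=
        natDegree_prod_le _ _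
      have h2 : ∑ j ∈ s, (X - C (ρ j)).natDegree ≤ ∑ j ∈ s, 1 :=
        Finset.sum_le_sum fun j _ => natDegree_X_sub_C_le _
      rw [Finset.sum_const, smul_eq_mul, mul_one] at h2
      rw [natDegree_C, zero_add]
      exact h1.trans h2
    rw [Finset.prod_insert ha, Finset.prod_insert ha, Finset.card_insert_of_notMem ha]
    have h1 : C c * ((X - C (ρ a)) * ∏ j ∈ s, (X - C (ρ j))) =
        (C c * ∏ j ∈ s, (X - C (ρ j))) * (X - C (ρ a)) := by ring
    rw [h1, hev_mul_X_sub φ _ _ A B hd, ih]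
    ring

variable {K : Type} [Field K] [Algebra ℂ K]

/-- the form `f` on `T (x₀, y₀) + (x₁, y₁)` -/
noncomputable def lin (f : Polynomial K) (q : ℕ) (x0 y0 x1 y1 : K) : Polynomial K :=
  ∑ i ∈ Finset.range (q + 1), C (f.coeff i) * (C x0 * X + C x1) ^ i * (C y0 * X + C y1) ^ (q - i)

theorem lin_eval (f : Polynomial K) (q : ℕ) (x0 y0 x1 y1 l : K) :
    (lin f q x0 y0 x1 y1).eval l = ev f q (x0 * l + x1) (y0 * l + y1) := by
  unfold lin ev
  rw [eval_finsetSum]
  refine Finset.sum_congr rfl fun i _ => ?_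
  simp only [eval_mul, eval_pow, eval_add, eval_C, eval_X]

/-- integral coefficients -/
theorem lin_ge {R : Subalgebra ℂ K} {D : Fin 2 → Derivation ℂ K K} {q : ℕ} {f : Polynomial K}
    (hf : RegF R D q f) {u : RVal K} (hu : PDiv R u) {x0 y0 x1 y1 : K}
    (h0 : URg u (x0 • D 0 + y0 • D 1)) (h1 : URg u (x1 • D 0 + y1 • D 1)) (k : ℕ) :
    u.Ge 0 ((lin f q x0 y0 x1 y1).coeff k) := by
  refine coef_ge u (fun l => ?_) k
  rw [lin_eval]
  refine hf u hu _ _ ?_
  intro F hF
  have h2 : ((x0 * algebraMap ℂ K l + x1) • D 0 + (y0 * algebraMap ℂ K l + y1) • D 1 :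
      Derivation ℂ K K) F = l • (x0 • D 0 + y0 • D 1 : Derivation ℂ K K) F +
        (x1 • D 0 + y1 • D 1 : Derivation ℂ K K) F := by
    simp only [Derivation.add_apply, Derivation.smul_apply, smul_eq_mul, Algebra.smul_def]
    ring
  rw [h2]
  exact u.ge_add (u.ge_smul l (h0 F hF)) (h1 F hF)

/-- factorisation over an extension field -/
theorem lin_prod {L : Type} [Field L] (φ : K →+* L) (f : Polynomial K) (c : L) {ι : Type}
    (s : Finset ι) (ρ : ι → L) (hf : f.map φ = C c * ∏ j ∈ s, (X - C (ρ j)))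
    (x0 y0 x1 y1 : K) :
    (lin f s.card x0 y0 x1 y1).map φ =
      C c * ∏ j ∈ s, (C (φ x0 - ρ j * φ y0) * X + C (φ x1 - ρ j * φ y1)) := by
  have h1 : (lin f s.card x0 y0 x1 y1).map φ =
      hev (C : L →+* Polynomial L) (f.map φ) s.card (C (φ x0) * X + C (φ x1))
        (C (φ y0) * X + C (φ y1)) := by
    unfold lin hev
    rw [Polynomial.map_sum]
    refine Finset.sum_congr rfl fun i _ => ?_
    simp only [Polynomial.map_mul, Polynomial.map_pow, Polynomial.map_add, map_C, map_X, coeff_map]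
  rw [h1, hf, hev_prod]
  congr 1
  refine Finset.prod_congr rfl fun j _ => ?_
  simp only [map_sub, map_mul]
  ring

/-- a root of multiplicity `i` -/
theorem lin_pow_mul (g : Polynomial K) (q i : ℕ) (hg : g.natDegree ≤ q) (ρ x0 y0 x1 y1 : K) :
    lin ((X - C ρ) ^ i * g) (q + i) x0 y0 x1 y1 =
      (C (x0 - ρ * y0) * X + C (x1 - ρ * y1)) ^ i * lin g q x0 y0 x1 y1 := by
  have h1 := hev_pow_mul (C : K →+* Polynomial K) g q (C x0 * X + C x1) (C y0 * X + C y1) hg ρ i
  have h2 : (C x0 * X + C x1 - C ρ * (C y0 * X + C y1) : Polynomial K) =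
      C (x0 - ρ * y0) * X + C (x1 - ρ * y1) := by
    simp only [map_sub, map_mul]
    ring
  rw [h2] at h1
  exact h1

end lin

end Pool.Agent.Helper76.D4
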