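import Pool.Agent.Helper88.D4.GmClo6
import Pool.Agent.Helper76.D4.NB
import Pool.Agent.Helper76.D4.L2x
import Pool.Agent.Helper87.D4.DGx
import Pool.Agent.Helper87.D4.XDx
import Pool.Agent.Helper79.D4.TWx
import Pool.Agent.Helper1.D4.KHx
import Pool.Agent.Helper37.D4.DEx
import Pool.Agent.Helper80.D4.MAx
import Pool.Agent.Helper8.D4.LOnex
import Pool.Agent.Helper74.D4.XIx

/-!
# Project D4 (MP_e1889a_ag): closure of stage 7, first part
-/

set_option autoImplicit false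

namespace Pool.Agent.Helper76.D4

open Pool.Agent.Helper88.D4

theorem t_L2x : S_L2x :=
  s_L2x (s_NB Pool.Agent.Helper87.D4.s_DG)
    (Pool.Agent.Helper1.D4.s_KHx (Pool.Agent.Helper79.D4.s_WRx Pool.Agent.Helper87.D4.s_DG))
    (Pool.Agent.Helper79.D4.s_TWx Pool.Agent.Helper87.D4.s_DG) Pool.Agent.Helper37.D4.s_DEx

theorem t_MAx : S_MAx := Pool.Agent.Helper80.D4.s_MAx t_L2x

theorem t_L1x : S_L1x := Pool.Agent.Helper8.D4.s_L1x t_NM t_MAx

theorem t_XIx (h : S_XI1) : S_XIx :=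
  Pool.Agent.Helper74.D4.s_XIx Pool.Agent.Helper38.D4.s_UNT
    (Pool.Agent.Helper38.W0.s_W0 Pool.Agent.Helper12.D4.s_AI Pool.Agent.Helper11.D4.s_EX1)
    Pool.Agent.Helper13.D4.s_WN Pool.Agent.Helper13.D4.s_WR Pool.Agent.Helper13.D4.s_WW
    Pool.Agent.Helper13.D4.s_WV Pool.Agent.Helper48.D4.s_CNT h Pool.Agent.Helper11.D4.s_EX1

end Pool.Agent.Helper76.D4
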