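import Pool.Agent.Helper76.D4.Base

/-!
# D4: frames at a prime divisor with a given uniformiser, and residues
-/

set_option autoImplicit false

namespace Pool.Agent.Helper76.D4

open Module Pool.Agent.Helper37.SD Pool.Agent.Helper20.TS Pool.Agent.Helper88.D4

variable {K : Type} [Field K] [Algebra ℂ K]

theorem ge_one_zero (u : RVal K) : u.Ge 0 (1 : K) := Or.inr (by rw [u.val_one])

theorem ge_algebraMap (u : RVal K) (c : ℂ) : u.Ge 0 (algebraMap ℂ K c) := by
  by_cases h : c = 0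
  · subst h; rw [map_zero]; exact Or.inl rfl
  · exact Or.inr (by rw [u.map_const c h])

open MvPolynomial in
theorem aeval_ge (u : RVal K) {n : ℕ} {z : Fin n → K} (hz : ∀ i, u.Ge 0 (z i))
    (P : MvPolynomial (Fin n) ℂ) : u.Ge 0 (aeval z P) := by
  induction P using MvPolynomial.induction_on with
  | C a => rw [aeval_C]; exact ge_algebraMap u a
  | add p q hp hq => rw [map_add]; exact u.ge_add hp hq
  | mul_X p j hp =>
    rw [map_mul, aeval_X]
    have := u.ge_mul hp (hz j)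
    simpa using this

/-- The main step: a derivation which sees only `z i` kills `∂P/∂X i`. -/
theorem pderiv_eq_zero {u : RVal K} {n : ℕ} {z : Fin n → K} (hz : ∀ i, u.Ge 0 (z i))
    {P : MvPolynomial (Fin n) ℂ} (hP1 : u.Ge 1 (MvPolynomial.aeval z P))
    (hmin : ∀ Q : MvPolynomial (Fin n) ℂ, Q ≠ 0 → Q.totalDegree < P.totalDegree →
      MvPolynomial.aeval z Q ≠ 0 ∧ u.val (MvPolynomial.aeval z Q) = 0)
    {p : K} (hp : p ≠ 0) (hp1 : u.val p = 1) (D : Derivation ℂ K K)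
    (hD : ∀ q, u.Ge 0 q → u.Ge 0 (D q)) (hDp : u.Ge 1 (D p)) (i : Fin n)
    (hi0 : D (z i) ≠ 0) (hi : u.val (D (z i)) = 0) (hj : ∀ j, j ≠ i → u.Ge 1 (D (z j))) :
    MvPolynomial.pderiv i P = 0 := by
  by_contra hne
  obtain ⟨h1, h2⟩ := hmin _ hne (totalDegree_pderiv_lt P i hne)
  set y := MvPolynomial.aeval z P with hy
  have hq : u.Ge 0 (y / p) := by
    have := u.ge_div hP1 hp
    rwa [hp1, sub_self] at this
  have hyp : y = p * (y / p) := by field_simp
  have hDy : u.Ge 1 (D y) := by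
    rw [hyp, Derivation.leibniz, smul_eq_mul, smul_eq_mul]
    apply u.ge_add
    · have h3 : u.Ge 1 p := Or.inr (by rw [hp1])
      have := u.ge_mul h3 (hD _ hq)
      simpa using this
    · have := u.ge_mul hq hDp
      simpa using this
  rw [hy, der_aeval, ← Finset.add_sum_erase _ _ (Finset.mem_univ i)] at hDy
  have hrest : u.Ge 1 (∑ j ∈ Finset.univ.erase i,
      MvPolynomial.aeval z (MvPolynomial.pderiv j P) * D (z j)) := by
    apply u.ge_sum
    intro j hj'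
    have := u.ge_mul (aeval_ge u hz (MvPolynomial.pderiv j P)) (hj j (Finset.ne_of_mem_erase hj'))
    simpa using this
  have hmain : u.Ge 1 (MvPolynomial.aeval z (MvPolynomial.pderiv i P) * D (z i)) := by
    have := u.ge_sub hDy hrest
    simpa using this
  rcases hmain with h | h
  · exact (mul_ne_zero h1 hi0) h
  · rw [u.map_mul _ _ h1 hi0, h2, hi] at h
    norm_num at h

theorem ge_one_of_int {u : RVal K} (hint : ∀ x, x ≠ 0 → ∃ n : ℤ, u.val x = n) {x : K}
    (h0 : u.Ge 0 x) (h1 : ¬ (x ≠ 0 ∧ u.val x = 0)) : u.Ge 1 x := by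
  by_cases hx : x = 0
  · exact Or.inl hx
  · rcases h0 with h | h
    · exact absurd h hx
    · obtain ⟨n, hn⟩ := hint x hx
      refine Or.inr ?_
      have h2 : u.val x ≠ 0 := fun h' => h1 ⟨hx, h'⟩
      rw [hn] at h h2 ⊢
      have h3 : (0 : ℤ) ≤ n := by exact_mod_cast h
      have h4 : n ≠ 0 := by
        intro h'
        apply h2
        rw [h']; norm_num
      have h5 : (1 : ℤ) ≤ n := by omega
      exact_mod_cast h5

/-- A uniformiser is part of a frame with entries in `R`. -/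
theorem s_UN_of (hM : MRel) : S_UN := by
  intro K _ _ R ξ J a hC u hu p hp hp1
  have hJ := hC.alt
  obtain ⟨x0, hx0, x1, hx1, x2, hx2, x3, hx3, hne, hval⟩ := hC.gen u hu
  by_contra hno
  have hpge : u.Ge 0 p := Or.inr (by rw [hp1]; norm_num)
  have hall : ∀ x ∈ R, ∀ y ∈ R, ∀ z ∈ R, u.Ge 1 (J x y z p) := by
    intro x hx y hy z hz
    apply ge_one_of_int hu.int
    · exact bra_ge hC hu (ge_of_mem hu hx) (ge_of_mem hu hy) (ge_of_mem hu hz) hpge
    · rintro ⟨h1, h2⟩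
      exact hno ⟨x, hx, y, hy, z, hz, h1, h2⟩
  set z : Fin 4 → K := ![x0, x1, x2, x3] with hz
  have hzR : ∀ i, z i ∈ R := by
    intro i
    fin_cases i
    · exact hx0
    · exact hx1
    · exact hx2
    · exact hx3
  have hz0 : ∀ i, u.Ge 0 (z i) := fun i => ge_of_mem hu (hzR i)
  obtain ⟨P, hP0, hP1, hmin⟩ := hM K hC.trdeg u hu.int ⟨p, hp, hp1⟩ z hz0
  have hge : ∀ x ∈ R, ∀ y ∈ R, ∀ w ∈ R, ∀ q, u.Ge 0 q → u.Ge 0 (J x y w q) := by
    intro x hx y hy w hw q hq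
    exact bra_ge hC hu (ge_of_mem hu hx) (ge_of_mem hu hy) (ge_of_mem hu hw) hq
  have ge_zero : ∀ {x : K}, x = 0 → u.Ge 1 x := fun h => Or.inl h
  have e0 : MvPolynomial.pderiv 0 P = 0 := by
    refine pderiv_eq_zero hz0 hP1 hmin hp hp1 (J x1 x2 x3) (hge x1 hx1 x2 hx2 x3 hx3)
      (hall x1 hx1 x2 hx2 x3 hx3) 0 hne hval ?_
    intro j hj
    fin_cases j
    · exact absurd rfl hj
    · exact ge_zero (eq14 hJ x1 x2 x3)
    · exact ge_zero (eq24 hJ x1 x2 x3)
    · exact ge_zero (eq34 hJ x1 x2 x3)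
  have e1 : MvPolynomial.pderiv 1 P = 0 := by
    have hs : J x0 x2 x3 x1 = -J x1 x2 x3 x0 := sw14 hJ x0 x2 x3 x1
    refine pderiv_eq_zero hz0 hP1 hmin hp hp1 (J x0 x2 x3) (hge x0 hx0 x2 hx2 x3 hx3)
      (hall x0 hx0 x2 hx2 x3 hx3) 1 ?_ ?_ ?_
    · change J x0 x2 x3 x1 ≠ 0
      rw [hs]; exact neg_ne_zero.2 hne
    · change u.val (J x0 x2 x3 x1) = 0
      rw [hs, u.val_neg]; exact hval
    intro j hj
    fin_cases j
    · exact ge_zero (eq14 hJ x0 x2 x3)
    · exact absurd rfl hj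
    · exact ge_zero (eq24 hJ x0 x2 x3)
    · exact ge_zero (eq34 hJ x0 x2 x3)
  have e2 : MvPolynomial.pderiv 2 P = 0 := by
    have hs : J x0 x1 x3 x2 = J x1 x2 x3 x0 := by
      rw [sw24 hJ x0 x1 x3 x2, sw14 hJ x0 x2 x3 x1, neg_neg]
    refine pderiv_eq_zero hz0 hP1 hmin hp hp1 (J x0 x1 x3) (hge x0 hx0 x1 hx1 x3 hx3)
      (hall x0 hx0 x1 hx1 x3 hx3) 2 ?_ ?_ ?_
    · change J x0 x1 x3 x2 ≠ 0
      rw [hs]; exact hne
    · change u.val (J x0 x1 x3 x2) = 0
      rw [hs]; exact hval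
    intro j hj
    fin_cases j
    · exact ge_zero (eq14 hJ x0 x1 x3)
    · exact ge_zero (eq24 hJ x0 x1 x3)
    · exact absurd rfl hj
    · exact ge_zero (eq34 hJ x0 x1 x3)
  have e3 : MvPolynomial.pderiv 3 P = 0 := by
    have hs : J x0 x1 x2 x3 = -J x1 x2 x3 x0 := by
      rw [sw34 hJ x0 x1 x2 x3, sw24 hJ x0 x1 x3 x2, sw14 hJ x0 x2 x3 x1, neg_neg]
    refine pderiv_eq_zero hz0 hP1 hmin hp hp1 (J x0 x1 x2) (hge x0 hx0 x1 hx1 x2 hx2)
      (hall x0 hx0 x1 hx1 x2 hx2) 3 ?_ ?_ ?_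
    · change J x0 x1 x2 x3 ≠ 0
      rw [hs]; exact neg_ne_zero.2 hne
    · change u.val (J x0 x1 x2 x3) = 0
      rw [hs, u.val_neg]; exact hval
    intro j hj
    fin_cases j
    · exact ge_zero (eq14 hJ x0 x1 x2)
    · exact ge_zero (eq24 hJ x0 x1 x2)
    · exact ge_zero (eq34 hJ x0 x1 x2)
    · exact absurd rfl hj
  have hall0 : ∀ i, MvPolynomial.pderiv i P = 0 := by
    intro i
    fin_cases i
    · exact e0
    · exact e1
    · exact e2
    · exact e3
  have hPC := eq_C_of_pderiv hall0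
  set c := MvPolynomial.coeff 0 P with hc
  have hc0 : c ≠ 0 := by
    intro h
    rw [h, MvPolynomial.C_0] at hPC
    exact hP0 hPC
  rw [hPC, MvPolynomial.aeval_C] at hP1
  rcases hP1 with h | h
  · exact (map_ne_zero _).2 hc0 h
  · rw [u.map_const c hc0] at h
    norm_num at h

end Pool.Agent.Helper76.D4
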